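import Pool.Agent.H122R3.SX.Pieces

/-!
Weights of pieces on the square lattice, and words in a wedge.
-/

set_option autoImplicit false

namespace Pool.Agent.H122R3.SX

open Finset Real

/-- bounds for the number of self-avoiding words -/
structure Bd (μ K : ℝ) : Prop where
  one : 1 ≤ μ
  Kn : 0 ≤ K
  low : ∀ n : ℕ, 2 ≤ n → μ ^ n ≤ c n
  up : ∀ n : ℕ, 2 ≤ n → (c n : ℝ) ≤ μ ^ n * exp (K * log n ^ 5)

theorem c_zero_le : c 0 ≤ 1 := by
  classical
  have : fs Saw 0 ⊆ {[]} := by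
    intro w hw
    rw [mem_fs] at hw
    rw [mem_singleton]
    exact List.length_eq_zero_iff.1 hw.2
  exact (card_le_card this).trans (by simp)

theorem c_one_le : c 1 ≤ 4 := by
  classical
  have : fs Saw 1 ⊆ (univ : Finset (Fin 4)).image (fun i => [i]) := by
    intro w hw
    rw [mem_fs] at hw
    obtain ⟨a, ha⟩ := List.length_eq_one_iff.1 hw.2
    rw [mem_image]
    exact ⟨a, mem_univ _, ha.symm⟩
  exact (card_le_card this).trans (card_image_le.trans (by simp))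

theorem Bd.c_le4 {μ K : ℝ} (h : Bd μ K) {a n : ℕ} (ha : a ≤ n) :
    (c a : ℝ) ≤ 4 * μ ^ a * exp (K * log n ^ 5) := by
  have hE : 1 ≤ exp (K * log n ^ 5) := by
    apply one_le_exp
    have : 0 ≤ log n := log_natCast_nonneg n
    have := h.Kn
    positivity
  have hμ := h.one
  rcases Nat.lt_or_ge a 2 with h2 | h2
  · have h3 : (c a : ℝ) ≤ 4 := by
      have : c a ≤ 4 := by
        interval_cases a
        · exact c_zero_le.trans (by norm_num)
        · exact c_one_le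
      exact_mod_cast this
    have h4 : (1 : ℝ) ≤ μ ^ a := one_le_pow₀ hμ
    nlinarith [mul_nonneg (sub_nonneg.2 h4) (sub_nonneg.2 hE)]
  · have h3 := h.up a h2
    have h4 : exp (K * log a ^ 5) ≤ exp (K * log n ^ 5) := by
      apply exp_le_exp.2
      apply mul_le_mul_of_nonneg_left _ h.Kn
      apply pow_le_pow_left₀ (log_natCast_nonneg a)
      exact log_le_log (by exact_mod_cast (by omega : 0 < a)) (by exact_mod_cast ha)
    have h5 : 0 < μ ^ a := pow_pos (by linarith) _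
    calc (c a : ℝ) ≤ μ ^ a * exp (K * log a ^ 5) := h3
      _ ≤ μ ^ a * exp (K * log n ^ 5) := by gcongr
      _ ≤ _ := by nlinarith [mul_pos h5 (exp_pos (K * log n ^ 5))]

/-- constant -/
noncomputable def K2 (K : ℝ) : ℝ := 6250 * K + 20 / log 2 ^ 4

theorem K2_nonneg {K : ℝ} (hK : 0 ≤ K) : 0 ≤ K2 K := by
  unfold K2
  have : 0 < log 2 := log_pos (by norm_num)
  positivity

theorem exists_ubx {μ K : ℝ} (h : Bd μ K) {S : ℕ} (hS : 1 ≤ S) :
    ∃ (m : ℕ) (x : ℤ), m ≤ 8 * S ^ 2 ∧ |x| ≤ S ∧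
      exp (-(K2 K * log (S + 1) ^ 5)) ≤ (ubx m x S : ℝ) / μ ^ m := by
  by_contra hcon
  push Not at hcon
  have hμ0 : 0 < μ := by linarith [h.one]
  obtain ⟨n, hn⟩ : ∃ n, n = 8 * S ^ 2 := ⟨_, rfl⟩
  rw [← hn] at hcon
  have hn2 : 2 ≤ n := by nlinarith
  obtain ⟨E, hE⟩ : ∃ E, E = exp (K * log n ^ 5) := ⟨_, rfl⟩
  have hE0 : 0 < E := by rw [hE]; exact exp_pos _
  obtain ⟨θ, hθ⟩ : ∃ θ, θ = exp (-(K2 K * log (S + 1) ^ 5)) := ⟨_, rfl⟩
  have hθ0 : 0 < θ := by rw [hθ]; exact exp_pos _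
  rw [← hθ] at hcon
  have hSr : (1 : ℝ) ≤ S := by exact_mod_cast hS
  have hlog2 : 0 < log 2 := log_pos (by norm_num)
  obtain ⟨l, hl⟩ : ∃ l, l = log ((S : ℝ) + 1) := ⟨_, rfl⟩
  have hl2 : log 2 ≤ l := by
    rw [hl]
    exact log_le_log (by norm_num) (by linarith)
  have hl0 : 0 < l := by linarith
  have hB : 160 * ((n : ℝ) + 1) ^ 2 * (2 * S + 1) * E ^ 2 * θ ≤ 1 := by
    have a1 : (160 : ℝ) ≤ ((S : ℝ) + 1) ^ 8 := by
      calc (160 : ℝ) ≤ 2 ^ 8 := by norm_num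
        _ ≤ _ := pow_le_pow_left₀ (by norm_num) (by linarith) 8
    have a3 : (8 : ℝ) ≤ ((S : ℝ) + 1) ^ 3 := by
      calc (8 : ℝ) = 2 ^ 3 := by norm_num
        _ ≤ _ := pow_le_pow_left₀ (by norm_num) (by linarith) 3
    have a2 : ((n : ℝ) + 1) ≤ ((S : ℝ) + 1) ^ 5 := by
      have : (n : ℝ) = 8 * (S : ℝ) ^ 2 := by rw [hn]; push_cast; ring
      rw [this]
      calc 8 * (S : ℝ) ^ 2 + 1 ≤ 8 * ((S : ℝ) + 1) ^ 2 := by nlinarith
        _ ≤ ((S : ℝ) + 1) ^ 3 * ((S : ℝ) + 1) ^ 2 := by gcongr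
        _ = _ := by ring
    have a4 : (2 * (S : ℝ) + 1) ≤ ((S : ℝ) + 1) ^ 2 := by nlinarith
    have b1 : 160 * ((n : ℝ) + 1) ^ 2 * (2 * S + 1) ≤ ((S : ℝ) + 1) ^ 20 := by
      calc 160 * ((n : ℝ) + 1) ^ 2 * (2 * S + 1) ≤
          ((S : ℝ) + 1) ^ 8 * (((S : ℝ) + 1) ^ 5) ^ 2 * ((S : ℝ) + 1) ^ 2 := by gcongr
        _ = _ := by ring
    have b2 : ((S : ℝ) + 1) ^ 20 = exp (20 * l) := by
      rw [hl, show (20 : ℝ) * log ((S : ℝ) + 1) = ((20 : ℕ) : ℝ) * log ((S : ℝ) + 1) by norm_num,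
        exp_nat_mul, exp_log (by linarith)]
    have b3 : log n ≤ 5 * l := by
      have : log ((n : ℝ)) ≤ log (((S : ℝ) + 1) ^ 5) := by
        apply log_le_log
        · exact_mod_cast (by omega : 0 < n)
        · linarith
      rw [log_pow] at this
      rw [hl]
      exact_mod_cast this
    have b4 : E ^ 2 ≤ exp (6250 * K * l ^ 5) := by
      rw [hE, ← exp_nat_mul]
      apply exp_le_exp.2
      have : log (n : ℝ) ^ 5 ≤ (5 * l) ^ 5 :=
        pow_le_pow_left₀ (log_natCast_nonneg n) b3 5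
      have hK := h.Kn
      push_cast
      nlinarith [mul_le_mul_of_nonneg_left this hK]
    have b5 : 20 * l ≤ 20 / log 2 ^ 4 * l ^ 5 := by
      have : log 2 ^ 4 ≤ l ^ 4 := pow_le_pow_left₀ hlog2.le hl2 4
      rw [div_mul_eq_mul_div, le_div_iff₀ (by positivity)]
      have h6 : 20 * l * log 2 ^ 4 ≤ 20 * l * l ^ 4 := by gcongr
      calc 20 * l * log 2 ^ 4 ≤ 20 * l * l ^ 4 := h6
        _ = _ := by ring
    calc 160 * ((n : ℝ) + 1) ^ 2 * (2 * S + 1) * E ^ 2 * θ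
        ≤ exp (20 * l) * exp (6250 * K * l ^ 5) * θ := by
          rw [b2] at b1
          gcongr
      _ = exp (20 * l + 6250 * K * l ^ 5 + -(K2 K * l ^ 5)) := by
          rw [hθ, ← hl, ← exp_add, ← exp_add]
      _ ≤ exp 0 := by
          apply exp_le_exp.2
          unfold K2
          linarith
      _ = 1 := exp_zero
  have h1 := c_le hS (le_of_eq hn.symm)
  have h2 : (c n : ℝ) ≤ ∑ m ∈ range (n + 1), ∑ a ∈ range (n - m + 1),
      80 * E ^ 2 * ((2 * S + 1) * θ) * μ ^ n := by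
    calc (c n : ℝ) ≤ ((∑ m ∈ range (n + 1), ∑ a ∈ range (n - m + 1),
          5 * (c a * ub m S * c (n - m - a)) : ℕ) : ℝ) := by exact_mod_cast h1
      _ = ∑ m ∈ range (n + 1), ∑ a ∈ range (n - m + 1),
          5 * ((c a : ℝ) * ub m S * c (n - m - a)) := by push_cast; rfl
      _ ≤ _ := by
          refine sum_le_sum fun m hm => sum_le_sum fun a ha => ?_
          rw [mem_range] at hm ha
          have e1 := h.c_le4 (a := a) (n := n) (by omega)
          have e2 := h.c_le4 (a := n - m - a) (n := n) (by omega)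
          rw [← hE] at e1 e2
          have e3 : (ub m S : ℝ) ≤ (2 * S + 1) * θ * μ ^ m := by
            calc (ub m S : ℝ) ≤ ((∑ x ∈ Icc (-(S : ℤ)) S, ubx m x S : ℕ) : ℝ) := by
                  exact_mod_cast ub_le m S
              _ = ∑ x ∈ Icc (-(S : ℤ)) S, (ubx m x S : ℝ) := by push_cast; rfl
              _ ≤ ∑ x ∈ Icc (-(S : ℤ)) S, θ * μ ^ m := by
                  refine sum_le_sum fun x hx => ?_
                  rw [mem_Icc] at hx
                  have := hcon m x (by omega) (by rw [abs_le]; exact hx)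
                  rw [div_lt_iff₀ (pow_pos hμ0 _)] at this
                  exact this.le
              _ = _ := by
                  rw [sum_const, Int.card_Icc, nsmul_eq_mul]
                  have : (((S : ℤ) + 1 - -(S : ℤ)).toNat) = 2 * S + 1 := by omega
                  rw [this]
                  push_cast
                  ring
          have e4 : μ ^ a * μ ^ m * μ ^ (n - m - a) = μ ^ n := by
            rw [← pow_add, ← pow_add]
            congr 1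
            omega
          calc 5 * ((c a : ℝ) * ub m S * c (n - m - a))
              ≤ 5 * ((4 * μ ^ a * E) * ((2 * S + 1) * θ * μ ^ m) *
                (4 * μ ^ (n - m - a) * E)) := by gcongr
            _ = 80 * E ^ 2 * ((2 * S + 1) * θ) * (μ ^ a * μ ^ m * μ ^ (n - m - a)) := by ring
            _ = _ := by rw [e4]
  have h3 : (c n : ℝ) ≤ ((n : ℝ) + 1) ^ 2 * (80 * E ^ 2 * ((2 * S + 1) * θ) * μ ^ n) := by
    refine h2.trans ?_
    have hnn : 0 ≤ 80 * E ^ 2 * ((2 * S + 1) * θ) * μ ^ n := by positivity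
    calc ∑ m ∈ range (n + 1), ∑ a ∈ range (n - m + 1), 80 * E ^ 2 * ((2 * S + 1) * θ) * μ ^ n
        ≤ ∑ m ∈ range (n + 1), ((n : ℝ) + 1) * (80 * E ^ 2 * ((2 * S + 1) * θ) * μ ^ n) := by
          refine sum_le_sum fun m _ => ?_
          rw [sum_const, card_range, nsmul_eq_mul]
          apply mul_le_mul_of_nonneg_right _ hnn
          exact_mod_cast (by omega : n - m + 1 ≤ n + 1)
      _ = _ := by
          rw [sum_const, card_range, nsmul_eq_mul]
          push_cast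
          ring
  have h4 := h.low n hn2
  have h5 : 0 < μ ^ n := pow_pos hμ0 _
  have h6 : μ ^ n ≤ (1 / 2) * μ ^ n := by
    calc μ ^ n ≤ c n := h4
      _ ≤ _ := h3
      _ = (160 * ((n : ℝ) + 1) ^ 2 * (2 * S + 1) * E ^ 2 * θ) * ((1 / 2) * μ ^ n) := by ring
      _ ≤ 1 * ((1 / 2) * μ ^ n) := by gcongr
      _ = _ := one_mul _
  linarith

/-- weight of double pieces -/
theorem exists_piece {μ K : ℝ} (h : Bd μ K) {S : ℕ} (hS : 1 ≤ S) :
    ∃ m : ℕ, m ≤ 16 * S ^ 2 ∧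
      exp (-(2 * K2 K * log (S + 1) ^ 5)) ≤ (g (2 * S) 0 (2 * S) m : ℝ) / μ ^ m := by
  obtain ⟨m, x, hm, hx, hmx⟩ := exists_ubx h hS
  refine ⟨2 * m, by omega, ?_⟩
  have hμ0 : 0 < μ := by linarith [h.one]
  have h1 := ubx_sq_le hS m hx
  calc exp (-(2 * K2 K * log (S + 1) ^ 5)) = exp (-(K2 K * log (S + 1) ^ 5)) ^ 2 := by
        rw [← exp_nat_mul]
        congr 1
        push_cast
        ring
    _ ≤ ((ubx m x S : ℝ) / μ ^ m) ^ 2 := pow_le_pow_left₀ (exp_pos _).le hmx 2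
    _ = (ubx m x S : ℝ) ^ 2 / μ ^ (2 * m) := by rw [div_pow, ← pow_mul, mul_comm m 2]
    _ ≤ _ := by
        apply div_le_div_of_nonneg_right _ (by positivity)
        exact_mod_cast h1

/-! ### the wedge -/

/-- words in the wedge `|x| ≤ η y` which end at height `H` on the vertical axis, at the top -/
structure GW (η : ℝ) (H : ℤ) (w : W) : Prop where
  saw : Saw w
  top : pos w 0 = H
  hor : X w = 0
  high : ∀ v, v <+: w → 0 ≤ pos v 0 ∧ pos v 0 ≤ H ∧ |(X v : ℝ)| ≤ η * pos v 0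

noncomputable def gw (η : ℝ) (H : ℤ) (n : ℕ) : ℕ := (fs (GW η H) n).card

theorem GW.append {η : ℝ} (hη : 0 < η) {H H' T : ℤ} {a b : W} (ha : GW η H a) (hb : G H' 0 T b)
    (hT : (T : ℝ) ≤ η * H) : GW η (H + H') (a ++ b) := by
  have hb0 : ∀ p, p <+: b → 0 ≤ pos p 0 := by
    intro p hp
    by_cases h : p = []
    · rw [h]; simp
    · have := hb.low p hp h; omega
  have hH' := hb.nonneg
  refine ⟨saw_append ha.saw hb.saw ha.top (fun v hv => (ha.high v hv).2.1) hb.low, ?_, ?_, ?_⟩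
  · rw [pos_append, ha.top, hb.top]
  · rw [X_append, ha.hor, hb.hor]; rfl
  · intro v hv
    have hH := (ha.high a (List.prefix_refl _)).1
    rw [ha.top] at hH
    rcases prefix_append_cases hv with hv | ⟨p, rfl, hp⟩
    · have := ha.high v hv
      exact ⟨this.1, by omega, this.2.2⟩
    · have h1 := hb.high p hp
      have h2 := hb0 p hp
      rw [pos_append, X_append, ha.top, ha.hor, zero_add]
      refine ⟨by omega, by omega, ?_⟩
      have h3 : (|X p| : ℝ) ≤ T := by exact_mod_cast h1.2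
      have h4 : (0 : ℝ) ≤ pos p 0 := by exact_mod_cast h2
      push_cast
      nlinarith [mul_nonneg hη.le h4]

theorem gw_mul {η : ℝ} (hη : 0 < η) {H H' T : ℤ} (hT : (T : ℝ) ≤ η * H) (n n' : ℕ) :
    gw η H n * g H' 0 T n' ≤ gw η (H + H') (n + n') := by
  classical
  unfold g gw
  rw [← card_product]
  apply card_le_card_of_injOn (fun p => p.1 ++ p.2)
  · rintro ⟨a, b⟩ hp
    rw [coe_product, Set.mem_prod, mem_coe, mem_coe, mem_fs, mem_fs] at hp
    rw [mem_coe, mem_fs]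
    refine ⟨hp.1.1.append hη hp.2.1 hT, ?_⟩
    rw [List.length_append, hp.1.2, hp.2.2]
  · rintro ⟨a, b⟩ hp ⟨a', b'⟩ hp' h
    rw [coe_product, Set.mem_prod, mem_coe, mem_coe, mem_fs, mem_fs] at hp hp'
    have := List.append_inj h (by rw [hp.1.2, hp'.1.2])
    exact Prod.ext this.1 this.2

theorem one_le_gw {η : ℝ} (hη : 0 < η) (r : ℕ) : 1 ≤ gw η r r := by
  refine (one_le_g r (T := 0) le_rfl).trans ?_
  apply card_le_card
  intro w hw
  rw [mem_fs] at *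
  refine ⟨⟨hw.1.saw, hw.1.top, hw.1.hor, ?_⟩, hw.2⟩
  intro v hv
  have h1 := hw.1.high v hv
  have h2 : 0 ≤ pos v 0 := by
    by_cases h : v = []
    · rw [h]; simp
    · have := hw.1.low v hv h; omega
  refine ⟨h2, h1.1, ?_⟩
  have h3 : X v = 0 := by
    have := abs_nonneg (X v)
    exact abs_eq_zero.1 (by omega)
  rw [h3]
  simp only [Int.cast_zero, abs_zero]
  have : (0 : ℝ) ≤ pos v 0 := by exact_mod_cast h2
  positivity

/-- multi-scale construction -/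
theorem exists_gw {μ K : ℝ} (h : Bd μ K) {η : ℝ} (hη : 0 < η) {κ : ℕ} (hκ : 1 ≤ η * κ) (j : ℕ) :
    ∃ n : ℕ, n ≤ 16 * κ * 4 ^ j ∧
      exp (-(2 * κ * K2 K * log 2 ^ 5 * (j : ℝ) ^ 6 + 2 * κ * log μ)) ≤
        (gw η ((2 * κ * 2 ^ j : ℕ) : ℤ) n : ℝ) / μ ^ n := by
  have hμ0 : 0 < μ := by linarith [h.one]
  have hlog2 : 0 < log 2 := log_pos (by norm_num)
  have hK2 := K2_nonneg h.Kn
  induction j with
  | zero =>
    refine ⟨2 * κ, by omega, ?_⟩
    have h1 := one_le_gw hη (2 * κ)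
    simp only [pow_zero, mul_one, Nat.cast_zero, ne_eq, OfNat.ofNat_ne_zero, not_false_eq_true,
      zero_pow, mul_zero, zero_add]
    have e1 : exp (-(2 * κ * log μ)) = 1 / μ ^ (2 * κ) := by
      rw [exp_neg, one_div]
      congr 1
      rw [show (2 : ℝ) * κ * log μ = ((2 * κ : ℕ) : ℝ) * log μ by push_cast; ring, exp_nat_mul,
        exp_log hμ0]
    rw [e1]
    apply div_le_div_of_nonneg_right _ (by positivity)
    exact_mod_cast h1
  | succ j ih =>
    obtain ⟨n, hn, hn2⟩ := ih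
    have hS : 1 ≤ 2 ^ j := Nat.one_le_two_pow
    obtain ⟨m, hm, hm2⟩ := exists_piece h hS
    refine ⟨n + κ * m, ?_, ?_⟩
    · have e1 : 16 * (2 ^ j) ^ 2 = 16 * 4 ^ j := by
        rw [← pow_mul, mul_comm j 2, pow_mul]
        norm_num
      rw [e1] at hm
      calc n + κ * m ≤ 16 * κ * 4 ^ j + κ * (16 * 4 ^ j) := by gcongr
        _ ≤ _ := by rw [pow_succ]; nlinarith [Nat.zero_le (κ * 4 ^ j)]
    · have g1 := g_pow (H := 2 * ((2 ^ j : ℕ) : ℤ)) (T := 2 * ((2 ^ j : ℕ) : ℤ)) (by positivity) m κ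
      have hT : ((2 * ((2 ^ j : ℕ) : ℤ) : ℤ) : ℝ) ≤ η * ((2 * κ * 2 ^ j : ℕ) : ℤ) := by
        push_cast
        have : (0 : ℝ) < 2 ^ j := by positivity
        nlinarith
      have g2 := gw_mul hη hT (H' := κ * (2 * ((2 ^ j : ℕ) : ℤ))) n (κ * m)
      have e2 : ((2 * κ * 2 ^ j : ℕ) : ℤ) + κ * (2 * ((2 ^ j : ℕ) : ℤ)) =
          ((2 * κ * 2 ^ (j + 1) : ℕ) : ℤ) := by
        push_cast
        ring
      rw [e2] at g2
      have g3 : (gw η ((2 * κ * 2 ^ j : ℕ) : ℤ) n : ℝ) *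
          (g (2 * ((2 ^ j : ℕ) : ℤ)) 0 (2 * ((2 ^ j : ℕ) : ℤ)) m : ℝ) ^ κ ≤
          (gw η ((2 * κ * 2 ^ (j + 1) : ℕ) : ℤ) (n + κ * m) : ℝ) := by
        have := (Nat.mul_le_mul_left (gw η ((2 * κ * 2 ^ j : ℕ) : ℤ) n) g1).trans g2
        exact_mod_cast this
      have e3 : exp (-(2 * κ * K2 K * log 2 ^ 5 * ((j + 1 : ℕ) : ℝ) ^ 6 + 2 * κ * log μ)) ≤
          exp (-(2 * κ * K2 K * log 2 ^ 5 * (j : ℝ) ^ 6 + 2 * κ * log μ)) *
          exp (-(2 * K2 K * log (((2 ^ j : ℕ) : ℝ) + 1) ^ 5)) ^ κ := by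
        rw [← exp_nat_mul, ← exp_add]
        apply exp_le_exp.2
        have l1 : log (((2 ^ j : ℕ) : ℝ) + 1) ≤ (j + 1) * log 2 := by
          have : log (((2 ^ j : ℕ) : ℝ) + 1) ≤ log ((2 : ℝ) ^ (j + 1)) := by
            apply log_le_log (by positivity)
            push_cast
            have : (1 : ℝ) ≤ 2 ^ j := one_le_pow₀ (by norm_num)
            rw [pow_succ]
            linarith
          rw [log_pow] at this
          exact_mod_cast this
        have l0 : 0 ≤ log (((2 ^ j : ℕ) : ℝ) + 1) := log_nonneg (by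
          have : (0 : ℝ) ≤ ((2 ^ j : ℕ) : ℝ) := Nat.cast_nonneg _
          linarith)
        have l2 : log (((2 ^ j : ℕ) : ℝ) + 1) ^ 5 ≤ ((j + 1) * log 2) ^ 5 :=
          pow_le_pow_left₀ l0 l1 5
        have l3 : ((j : ℝ) + 1) ^ 5 + (j : ℝ) ^ 6 ≤ ((j : ℝ) + 1) ^ 6 := by
          have hj : (0 : ℝ) ≤ j := Nat.cast_nonneg _
          have : (j : ℝ) ^ 5 ≤ ((j : ℝ) + 1) ^ 5 := pow_le_pow_left₀ hj (by linarith) 5
          calc ((j : ℝ) + 1) ^ 5 + (j : ℝ) ^ 6 = ((j : ℝ) + 1) ^ 5 + j * (j : ℝ) ^ 5 := by ring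
            _ ≤ ((j : ℝ) + 1) ^ 5 + j * ((j : ℝ) + 1) ^ 5 := by gcongr
            _ = _ := by ring
        have l4 : 2 * κ * K2 K * log (((2 ^ j : ℕ) : ℝ) + 1) ^ 5 ≤
            2 * κ * K2 K * ((j + 1) * log 2) ^ 5 := by gcongr
        have l5 : 2 * κ * K2 K * log 2 ^ 5 * (((j : ℝ) + 1) ^ 5 + (j : ℝ) ^ 6) ≤
            2 * κ * K2 K * log 2 ^ 5 * ((j : ℝ) + 1) ^ 6 := by gcongr
        push_cast at l4 ⊢
        nlinarith
      refine e3.trans ?_
      calc exp (-(2 * κ * K2 K * log 2 ^ 5 * (j : ℝ) ^ 6 + 2 * κ * log μ)) *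
          exp (-(2 * K2 K * log (((2 ^ j : ℕ) : ℝ) + 1) ^ 5)) ^ κ
          ≤ ((gw η ((2 * κ * 2 ^ j : ℕ) : ℤ) n : ℝ) / μ ^ n) *
            ((g (2 * ((2 ^ j : ℕ) : ℤ)) 0 (2 * ((2 ^ j : ℕ) : ℤ)) m : ℝ) / μ ^ m) ^ κ := by
            gcongr
        _ = ((gw η ((2 * κ * 2 ^ j : ℕ) : ℤ) n : ℝ) *
            (g (2 * ((2 ^ j : ℕ) : ℤ)) 0 (2 * ((2 ^ j : ℕ) : ℤ)) m : ℝ) ^ κ) /
            μ ^ (n + κ * m) := by
            rw [div_pow, div_mul_div_comm, ← pow_mul, ← pow_add, mul_comm m κ]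
        _ ≤ _ := by
            apply div_le_div_of_nonneg_right g3 (by positivity)

/-- the number of self-avoiding words in the wedge -/
noncomputable def wd (η : ℝ) (n : ℕ) : ℕ :=
  (fs (fun w => Saw w ∧ ∀ v, v <+: w → |(X v : ℝ)| ≤ η * pos v 0) n).card

theorem pos_le_length (w : W) : pos w 0 ≤ w.length := by
  induction w with
  | nil => simp
  | cons l w ih =>
    have := st_abs l 0
    rw [abs_le] at this
    rw [pos_cons, List.length_cons]
    push_cast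
    omega

theorem gw_le {η : ℝ} {H : ℤ} {n N : ℕ} (hn : n ≤ N) : gw η H N ≤ wd η n * c (N - n) := by
  classical
  unfold gw wd c
  rw [← card_product]
  apply card_le_card_of_injOn (fun w => (w.take n, w.drop n))
  · intro w hw
    rw [mem_coe, mem_fs] at hw
    rw [coe_product, Set.mem_prod, mem_coe, mem_coe, mem_fs, mem_fs]
    refine ⟨⟨⟨hw.1.saw.inf (List.take_prefix _ _).isInfix, ?_⟩, ?_⟩,
      hw.1.saw.inf (List.drop_suffix _ _).isInfix, ?_⟩
    · intro v hv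
      exact (hw.1.high v (hv.trans (List.take_prefix _ _))).2.2
    · rw [List.length_take, hw.2]; omega
    · rw [List.length_drop, hw.2]
  · intro w _ w' _ h
    simp only [Prod.mk.injEq] at h
    rw [← List.take_append_drop n w, ← List.take_append_drop n w', h.1, h.2]

/-- **Walks in a wedge.** -/
theorem wedge {μ K : ℝ} (h : Bd μ K) {η : ℝ} (hη : 0 < η) : ∃ K6 : ℝ, 0 ≤ K6 ∧
    ∀ n : ℕ, 2 ≤ n → exp (-(K6 * log n ^ 6)) * c n ≤ wd η n := by
  have hμ0 : 0 < μ := by linarith [h.one]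
  have hlμ : 0 ≤ log μ := log_nonneg h.one
  have hlog2 : 0 < log 2 := log_pos (by norm_num)
  have hK2 := K2_nonneg h.Kn
  have hKn := h.Kn
  obtain ⟨κ, hκd⟩ : ∃ κ : ℕ, κ = ⌈1 / η⌉₊ + 1 := ⟨_, rfl⟩
  have hκ1 : 1 ≤ κ := by omega
  have hκ : 1 ≤ η * κ := by
    have h1 : 1 / η ≤ κ := by
      rw [hκd]
      push_cast
      have := Nat.le_ceil (1 / η)
      linarith
    rw [div_le_iff₀ hη] at h1
    linarith
  obtain ⟨q, hq⟩ : ∃ q, q = log (64 * κ) / log 2 + 2 := ⟨_, rfl⟩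
  have hl64 : 0 ≤ log (64 * (κ : ℝ)) := log_nonneg (by
    have : (1 : ℝ) ≤ κ := by exact_mod_cast hκ1
    linarith)
  have hq0 : 0 ≤ q := by rw [hq]; positivity
  obtain ⟨C1, hC1⟩ : ∃ C1, C1 = 128 * κ * K2 K / log 2 := ⟨_, rfl⟩
  refine ⟨C1 + 2 * κ * log μ / log 2 ^ 6 + log 4 / log 2 ^ 6 + K * q ^ 5 / log 2 + K / log 2,
    by rw [hC1]; positivity, ?_⟩
  intro n hn
  have hnr : (2 : ℝ) ≤ n := by exact_mod_cast hn
  obtain ⟨l, hl⟩ : ∃ l, l = log (n : ℝ) := ⟨_, rfl⟩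
  have hl2 : log 2 ≤ l := by rw [hl]; exact log_le_log (by norm_num) hnr
  have hl0 : 0 < l := by linarith
  rw [← hl]
  obtain ⟨j, hj⟩ : ∃ j, j = Nat.clog 2 n := ⟨_, rfl⟩
  have hj1 : n ≤ 2 ^ j := by rw [hj]; exact Nat.le_pow_clog (by norm_num) n
  have hj2 : 2 ^ (j - 1) < n := by
    rw [hj]
    exact Nat.pow_pred_clog_lt_self (by norm_num) (by omega)
  have hj0 : 1 ≤ j := by
    by_contra hc
    have : j = 0 := by omega
    rw [this] at hj1
    omega
  obtain ⟨N, hN1, hN2⟩ := exists_gw h hη hκ j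
  -- lengths
  have hgpos : 0 < gw η ((2 * κ * 2 ^ j : ℕ) : ℤ) N := by
    by_contra hc
    have : gw η ((2 * κ * 2 ^ j : ℕ) : ℤ) N = 0 := by omega
    rw [this, Nat.cast_zero, zero_div] at hN2
    exact absurd (exp_pos _) (not_lt.2 hN2)
  have hNn : n ≤ N := by
    obtain ⟨w, hw⟩ := card_pos.1 hgpos
    rw [mem_fs] at hw
    have h1 := pos_le_length w
    rw [hw.1.top, hw.2] at h1
    have h2 : 2 * κ * 2 ^ j ≤ N := by exact_mod_cast h1
    nlinarith [Nat.zero_le (2 ^ j)]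
  have hgl := gw_le (η := η) (H := ((2 * κ * 2 ^ j : ℕ) : ℤ)) hNn
  -- logs
  have hjl : (j : ℝ) ≤ 2 * l / log 2 := by
    rw [le_div_iff₀ hlog2]
    have h1 : ((j - 1 : ℕ) : ℝ) * log 2 ≤ l := by
      rw [← log_pow, hl]
      apply log_le_log (by positivity)
      exact_mod_cast hj2.le
    rw [Nat.cast_sub hj0] at h1
    push_cast at h1
    linarith
  have hNl : log N ≤ q * l := by
    have h1 : (N : ℝ) ≤ 64 * κ * (n : ℝ) ^ 2 := by
      have h2 : 2 ^ j ≤ 2 * n := by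
        have : 2 ^ j = 2 * 2 ^ (j - 1) := by
          rw [← pow_succ']
          congr 1
          omega
        omega
      have h3 : 4 ^ j ≤ 4 * n ^ 2 := by
        have : 4 ^ j = (2 ^ j) ^ 2 := by
          rw [← pow_mul, mul_comm j 2, pow_mul]
          norm_num
        rw [this]
        calc (2 ^ j) ^ 2 ≤ (2 * n) ^ 2 := Nat.pow_le_pow_left h2 2
          _ = _ := by ring
      have h4 : N ≤ 64 * κ * n ^ 2 := by
        calc N ≤ 16 * κ * 4 ^ j := hN1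
          _ ≤ 16 * κ * (4 * n ^ 2) := by gcongr
          _ = _ := by ring
      exact_mod_cast h4
    have hκr : (0 : ℝ) < κ := by exact_mod_cast hκ1
    have hN0 : (0 : ℝ) < N := by exact_mod_cast (by omega : 0 < N)
    calc log N ≤ log (64 * κ * (n : ℝ) ^ 2) := log_le_log hN0 h1
      _ = log (64 * κ) + 2 * l := by
          rw [log_mul (by positivity) (by positivity), log_pow, ← hl]
          push_cast
          ring
      _ ≤ log (64 * κ) / log 2 * l + 2 * l := by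
          have : log (64 * κ) ≤ log (64 * κ) / log 2 * l := by
            rw [div_mul_eq_mul_div, le_div_iff₀ hlog2]
            gcongr
          linarith
      _ = _ := by rw [hq]; ring
  have hcN := h.c_le4 (a := N - n) (n := N) (by omega)
  have hcn := h.up n hn
  rw [← hl] at hcn
  have hlN0 : 0 ≤ log (N : ℝ) := log_natCast_nonneg N
  have hlN5 : log (N : ℝ) ^ 5 ≤ q ^ 5 * l ^ 5 := by
    rw [← mul_pow]
    exact pow_le_pow_left₀ hlN0 hNl 5
  have hj6 : (j : ℝ) ^ 6 ≤ 64 * l ^ 6 / log 2 ^ 6 := by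
    calc (j : ℝ) ^ 6 ≤ (2 * l / log 2) ^ 6 := pow_le_pow_left₀ (Nat.cast_nonneg _) hjl 6
      _ = _ := by rw [div_pow]; ring
  have hl65 : l ^ 5 ≤ l ^ 6 / log 2 := by
    rw [le_div_iff₀ hlog2]
    calc l ^ 5 * log 2 ≤ l ^ 5 * l := by gcongr
      _ = _ := by ring
  have hl60 : 1 ≤ l ^ 6 / log 2 ^ 6 := by
    rw [le_div_iff₀ (by positivity), one_mul]
    exact pow_le_pow_left₀ hlog2.le hl2 6
  -- assembly
  obtain ⟨E1, hE1⟩ : ∃ E1, E1 = exp (-(2 * κ * K2 K * log 2 ^ 5 * (j : ℝ) ^ 6 + 2 * κ * log μ)) :=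
    ⟨_, rfl⟩
  rw [← hE1] at hN2
  have hE10 : 0 < E1 := by rw [hE1]; exact exp_pos _
  have s1 : E1 * μ ^ N ≤ (wd η n : ℝ) * (4 * μ ^ (N - n) * exp (K * log N ^ 5)) := by
    rw [le_div_iff₀ (pow_pos hμ0 N)] at hN2
    calc E1 * μ ^ N ≤ (gw η ((2 * κ * 2 ^ j : ℕ) : ℤ) N : ℝ) := hN2
      _ ≤ (wd η n : ℝ) * c (N - n) := by exact_mod_cast hgl
      _ ≤ _ := by gcongr
  have s2 : μ ^ N = μ ^ n * μ ^ (N - n) := by rw [← pow_add]; congr 1; omega
  have s3 : E1 * μ ^ n ≤ (wd η n : ℝ) * (4 * exp (K * log N ^ 5)) := by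
    have h1 : 0 < μ ^ (N - n) := pow_pos hμ0 _
    rw [s2] at s1
    have : E1 * μ ^ n * μ ^ (N - n) ≤ (wd η n : ℝ) * (4 * exp (K * log N ^ 5)) * μ ^ (N - n) := by
      calc E1 * μ ^ n * μ ^ (N - n) = E1 * (μ ^ n * μ ^ (N - n)) := by ring
        _ ≤ _ := s1
        _ = _ := by ring
    exact le_of_mul_le_mul_right this h1
  have s4 : exp (-((C1 + 2 * κ * log μ / log 2 ^ 6 + log 4 / log 2 ^ 6 + K * q ^ 5 / log 2 +
      K / log 2) * l ^ 6)) * exp (K * l ^ 5) * (4 * exp (K * log N ^ 5)) ≤ E1 := by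
    rw [show (4 : ℝ) = exp (log 4) by rw [exp_log (by norm_num)], ← exp_add, ← exp_add, ← exp_add,
      hE1]
    apply exp_le_exp.2
    rw [show log (exp (log 4)) = log 4 by rw [log_exp]]
    have t1 : 2 * κ * K2 K * log 2 ^ 5 * (j : ℝ) ^ 6 ≤ C1 * l ^ 6 := by
      calc 2 * κ * K2 K * log 2 ^ 5 * (j : ℝ) ^ 6
          ≤ 2 * κ * K2 K * log 2 ^ 5 * (64 * l ^ 6 / log 2 ^ 6) := by gcongr
        _ = C1 * l ^ 6 := by rw [hC1]; field_simp; ring
    have t2 : 2 * κ * log μ ≤ 2 * κ * log μ / log 2 ^ 6 * l ^ 6 := by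
      calc 2 * κ * log μ = 2 * κ * log μ * 1 := by ring
        _ ≤ 2 * κ * log μ * (l ^ 6 / log 2 ^ 6) := by gcongr
        _ = _ := by ring
    have t3 : log 4 ≤ log 4 / log 2 ^ 6 * l ^ 6 := by
      have : 0 ≤ log 4 := log_nonneg (by norm_num)
      calc log 4 = log 4 * 1 := by ring
        _ ≤ log 4 * (l ^ 6 / log 2 ^ 6) := by gcongr
        _ = _ := by ring
    have t4 : K * log N ^ 5 ≤ K * q ^ 5 / log 2 * l ^ 6 := by
      calc K * log N ^ 5 ≤ K * (q ^ 5 * l ^ 5) := by gcongr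
        _ ≤ K * (q ^ 5 * (l ^ 6 / log 2)) := by gcongr
        _ = _ := by ring
    have t5 : K * l ^ 5 ≤ K / log 2 * l ^ 6 := by
      calc K * l ^ 5 ≤ K * (l ^ 6 / log 2) := by gcongr
        _ = _ := by ring
    nlinarith
  have hE4 : 0 < 4 * exp (K * log N ^ 5) := by positivity
  have s5 : exp (-((C1 + 2 * κ * log μ / log 2 ^ 6 + log 4 / log 2 ^ 6 + K * q ^ 5 / log 2 +
      K / log 2) * l ^ 6)) * c n * (4 * exp (K * log N ^ 5)) ≤
      (wd η n : ℝ) * (4 * exp (K * log N ^ 5)) := by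
    calc exp (-((C1 + 2 * κ * log μ / log 2 ^ 6 + log 4 / log 2 ^ 6 + K * q ^ 5 / log 2 +
        K / log 2) * l ^ 6)) * c n * (4 * exp (K * log N ^ 5))
        ≤ exp (-((C1 + 2 * κ * log μ / log 2 ^ 6 + log 4 / log 2 ^ 6 + K * q ^ 5 / log 2 +
        K / log 2) * l ^ 6)) * (μ ^ n * exp (K * l ^ 5)) * (4 * exp (K * log N ^ 5)) := by gcongr
      _ = (exp (-((C1 + 2 * κ * log μ / log 2 ^ 6 + log 4 / log 2 ^ 6 + K * q ^ 5 / log 2 +
        K / log 2) * l ^ 6)) * exp (K * l ^ 5) * (4 * exp (K * log N ^ 5))) * μ ^ n := by ring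
      _ ≤ E1 * μ ^ n := by gcongr
      _ ≤ _ := s3
  exact le_of_mul_le_mul_right s5 hE4

end Pool.Agent.H122R3.SX
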