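import Pool.Agent.H122R3.SX.Est
import Pool.Agent.H500R3.Saw.Fin5
import Pool.Agent.H982R3.Plain

/-!
Words and walks on the square lattice.
-/

set_option autoImplicit false

namespace Pool.Agent.H122R3.SX

/-- adjacency in the square lattice -/
def Adj (p q : ℤ × ℤ) : Prop := |p.1 - q.1| + |p.2 - q.2| = 1

/-- the `n`-step self-avoiding walks from the origin -/
def walks (n : ℕ) : Set (Fin (n + 1) → ℤ × ℤ) :=
  {f | f 0 = 0 ∧ Function.Injective f ∧ ∀ i : Fin n, Adj (f i.castSucc) (f i.succ)}

/-- the end point of a word -/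
def V (w : W) : ℤ × ℤ := (X w, pos w 0)

theorem V_next (w : W) (l : Fin 4) : V (w ++ [l]) = (X w + st l 1, pos w 0 + st l 0) := by
  unfold V
  rw [X_append, pos_append]
  simp [X]

theorem V_next_inj {w : W} {l l' : Fin 4} (h : V (w ++ [l]) = V (w ++ [l'])) : l = l' := by
  rw [V_next, V_next, Prod.mk.injEq] at h
  obtain ⟨h1, h2⟩ := h
  have h1' : st l 1 = st l' 1 := by omega
  have h2' : st l 0 = st l' 0 := by omega
  revert h1' h2'
  clear h1 h2
  revert l l'
  decide

theorem st_one (l : Fin 4) : |st l 1| + |st l 0| = 1 := by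
  revert l
  decide

theorem adj_next (w : W) (l : Fin 4) : Adj (V w) (V (w ++ [l])) := by
  rw [V_next]
  unfold Adj V
  have := st_one l
  simp only
  rw [show X w - (X w + st l 1) = -st l 1 by ring,
    show pos w 0 - (pos w 0 + st l 0) = -st l 0 by ring, abs_neg, abs_neg]
  exact this

theorem next_of_adj {w : W} {q : ℤ × ℤ} (h : Adj (V w) q) : ∃ l, V (w ++ [l]) = q := by
  obtain ⟨x, y⟩ := q
  unfold Adj V at h
  simp only at h
  have hc : (x = X w + 1 ∧ y = pos w 0) ∨ (x = X w - 1 ∧ y = pos w 0) ∨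
      (x = X w ∧ y = pos w 0 + 1) ∨ (x = X w ∧ y = pos w 0 - 1) := by
    rcases abs_cases (X w - x) with h1 | h1 <;> rcases abs_cases (pos w 0 - y) with h2 | h2 <;> omega
  rcases hc with ⟨rfl, rfl⟩ | ⟨rfl, rfl⟩ | ⟨rfl, rfl⟩ | ⟨rfl, rfl⟩
  · exact ⟨2, by rw [V_next]; simp [st]⟩
  · exact ⟨3, by rw [V_next]; simp [st]; ring⟩
  · exact ⟨0, by rw [V_next]; simp [st]⟩
  · exact ⟨1, by rw [V_next]; simp [st]; ring⟩

theorem pos_eq_of_V {a b : W} (h : V a = V b) : ∀ i, pos a i = pos b i := by
  unfold V X at h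
  rw [Prod.mk.injEq] at h
  intro i
  fin_cases i
  · exact h.2
  · exact h.1

/-- the walk of a word -/
def fw (n : ℕ) (w : W) : Fin (n + 1) → ℤ × ℤ := fun k => V (w.take k)

theorem fw_inj {n : ℕ} {w w' : W} (hw : w.length = n) (hw' : w'.length = n)
    (h : fw n w = fw n w') : w = w' := by
  have key : ∀ k, k ≤ n → w.take k = w'.take k := by
    intro k
    induction k with
    | zero => intro _; simp
    | succ k ih =>
      intro hk
      have h1 := ih (by omega)
      have h2 := congrFun h ⟨k + 1, by omega⟩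
      unfold fw at h2
      simp only at h2
      have e1 : w.take (k + 1) = w.take k ++ [w[k]'(by omega)] := by
        rw [List.take_add_one, List.getElem?_eq_getElem (by omega)]; rfl
      have e2 : w'.take (k + 1) = w'.take k ++ [w'[k]'(by omega)] := by
        rw [List.take_add_one, List.getElem?_eq_getElem (by omega)]; rfl
      rw [e1, e2, ← h1] at h2 ⊢
      rw [V_next_inj h2]
  have := key n le_rfl
  rwa [List.take_of_length_le hw.le, List.take_of_length_le hw'.le] at this

theorem fw_adj {n : ℕ} {w : W} (hw : w.length = n) (i : Fin n) :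
    Adj (fw n w i.castSucc) (fw n w i.succ) := by
  unfold fw
  have hi := i.2
  have e1 : w.take (i + 1) = w.take i ++ [w[(i : ℕ)]'(by omega)] := by
    rw [List.take_add_one, List.getElem?_eq_getElem (by omega)]; rfl
  simp only [Fin.val_castSucc, Fin.val_succ]
  rw [e1]
  exact adj_next _ _

theorem fw_injective {n : ℕ} {w : W} (hs : Saw w) (hw : w.length = n) :
    Function.Injective (fw n w) := by
  intro a b hab
  unfold fw at hab
  have h := pos_eq_of_V hab
  by_contra hne
  have hne' : (a : ℕ) ≠ b := fun h => hne (Fin.ext h)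
  rcases Nat.lt_or_gt_of_ne hne' with h1 | h1
  · obtain ⟨i, hi⟩ := hs.take_ne h1 (by omega)
    exact hi (h i)
  · obtain ⟨i, hi⟩ := hs.take_ne h1 (by omega)
    exact hi (h i).symm

theorem fw_mem {n : ℕ} {w : W} (hs : Saw w) (hw : w.length = n) : fw n w ∈ walks n :=
  ⟨by simp [fw, V], fw_injective hs hw, fw_adj hw⟩

theorem exists_word {n : ℕ} {γ : Fin (n + 1) → ℤ × ℤ} (hγ : γ ∈ walks n) :
    ∀ k (hk : k ≤ n), ∃ w : W, w.length = k ∧
      ∀ j (hj : j ≤ k), V (w.take j) = γ ⟨j, by omega⟩ := by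
  obtain ⟨h0, -, hn⟩ := hγ
  intro k
  induction k with
  | zero =>
    intro _
    refine ⟨[], rfl, ?_⟩
    intro j hj
    have : j = 0 := by omega
    subst this
    simp only [List.take_nil, Fin.zero_eta]
    rw [h0]
    simp [V]
  | succ k ih =>
    intro hk
    obtain ⟨w, hw, hw2⟩ := ih (by omega)
    have h1 := hw2 k le_rfl
    rw [List.take_of_length_le hw.le] at h1
    have h2 := hn ⟨k, by omega⟩
    simp only [Fin.castSucc_mk, Fin.succ_mk] at h2
    rw [← h1] at h2
    obtain ⟨l, hl⟩ := next_of_adj h2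
    refine ⟨w ++ [l], by simp [hw], ?_⟩
    intro j hj
    rcases Nat.lt_or_ge j (k + 1) with h3 | h3
    · rw [List.take_append_of_le_length (by omega)]
      exact hw2 j (by omega)
    · have : j = k + 1 := by omega
      subst this
      rw [List.take_of_length_le (by simp [hw])]
      exact hl

theorem walks_eq (n : ℕ) : walks n = fw n '' (fs Saw n : Set W) := by
  ext γ
  constructor
  · intro hγ
    obtain ⟨w, hw, hw2⟩ := exists_word hγ n le_rfl
    refine ⟨w, ?_, ?_⟩
    · rw [Finset.mem_coe, mem_fs]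
      refine ⟨?_, hw⟩
      intro v hv h0
      by_contra hcon
      push Not at hcon
      obtain ⟨s, t, hst⟩ := hv
      have hlv := List.length_pos_of_ne_nil h0
      have hlen : s.length + v.length + t.length = n := by
        rw [← hw, ← hst]
        simp
        ring
      have e1 : w.take s.length = s := by
        rw [← hst, List.append_assoc, List.take_left']
        rfl
      have e2 : w.take (s.length + v.length) = s ++ v := by
        rw [← hst, List.take_left']
        simp
      have h1 := hw2 s.length (by omega)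
      have h2 := hw2 (s.length + v.length) (by omega)
      rw [e1] at h1
      rw [e2] at h2
      have h3 : V (s ++ v) = V s := by
        unfold V X
        simp only [pos_append, hcon, add_zero]
      rw [h3, h1] at h2
      have := hγ.2.1 h2
      simp only [Fin.mk.injEq] at this
      omega
    · funext k
      exact hw2 k (by omega)
  · rintro ⟨w, hw, rfl⟩
    rw [Finset.mem_coe, mem_fs] at hw
    exact fw_mem hw.1 hw.2

theorem ncard_walks (n : ℕ) : (walks n).ncard = c n := by
  have h1 : Set.InjOn (fw n) (fs Saw n : Set W) := by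
    intro w hw w' hw' h
    rw [Finset.mem_coe, mem_fs] at hw hw'
    exact fw_inj hw.2 hw'.2 h
  rw [walks_eq, h1.ncard_image, Set.ncard_coe_finset]
  rfl

theorem walks_finite (n : ℕ) : (walks n).Finite := by
  rw [walks_eq]
  exact (Finset.finite_toSet _).image _

/-- the bounds for a graph which has coordinates in one of the word models -/
theorem bounds [L : H982.Lat] {Adj : ℤ × ℤ → ℤ × ℤ → Prop} {φ : ℤ × ℤ → ℤ × ℤ}
    {R : ℕ → ℤ × ℤ → Prop} (H : H982.Coord Adj φ R) (a : ℕ → ℕ)
    (ha : ∀ n : ℕ, a n = Set.ncard {f : Fin (n + 1) → ℤ × ℤ |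
            f 0 = 0 ∧ Function.Injective f ∧
            ∀ i : Fin n, Adj (f i.castSucc) (f i.succ)}) :
    ∃ μ K : ℝ, 0 < μ ∧ 0 ≤ K ∧ ∀ n : ℕ, 2 ≤ n →
      μ ^ n ≤ (a n : ℝ) ∧ (a n : ℝ) ≤ μ ^ n * Real.exp (K * (Real.log n) ^ 5) := by
  have ha' : ∀ n, a n = (H982.walks Adj n).ncard := ha
  obtain ⟨K, hK0, hK⟩ := H500S.cr'_upper5
  refine ⟨H982.mu, K, H982.mu_pos, hK0, fun n hn => ?_⟩
  rw [ha', H982.ncard_walks H]
  exact ⟨H982.mu_pow_le n, hK n hn⟩

theorem two_pow_le (n : ℕ) : 2 ^ n ≤ c n := by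
  classical
  have h : (2 : ℕ) ^ n = Fintype.card (Fin n → Fin 2) := by simp
  rw [h, ← Finset.card_univ]
  apply Finset.card_le_card_of_injOn
    (fun f : Fin n → Fin 2 => List.ofFn (fun i => if f i = 0 then (0 : Fin 4) else 2))
  · intro f _
    rw [Finset.mem_coe, mem_fs]
    refine ⟨?_, by simp⟩
    intro v hv h0
    have hmem : ∀ l ∈ v, l = 0 ∨ l = 2 := by
      intro l hl
      have := hv.subset hl
      rw [List.mem_ofFn] at this
      obtain ⟨i, hi⟩ := this
      split_ifs at hi <;> simp [← hi]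
    have key : ∀ v : W, (∀ l ∈ v, l = 0 ∨ l = 2) → pos v 0 + pos v 1 = v.length := by
      intro v
      induction v with
      | nil => simp
      | cons l v ih =>
        intro h
        have h1 := ih (fun l hl => h l (List.mem_cons_of_mem _ hl))
        rw [pos_cons, pos_cons, List.length_cons]
        push_cast
        rcases h l List.mem_cons_self with rfl | rfl <;> simp [st] <;> omega
    have h1 := key v hmem
    have h2 := List.length_pos_of_ne_nil h0
    by_contra hcon
    push Not at hcon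
    rw [hcon 0, hcon 1] at h1
    omega
  · intro f _ f' _ h
    have h' := List.ofFn_injective h
    funext i
    have := congrFun h' i
    have h3 : ∀ a b : Fin 2, (if a = 0 then (0 : Fin 4) else 2) = (if b = 0 then (0 : Fin 4) else 2)
      → a = b := by decide
    exact h3 _ _ this

theorem exists_Bd : ∃ μ K : ℝ, Bd μ K := by
  obtain ⟨μ, K, hμ, hK0, h⟩ := bounds (L := H982P.sqL) H982P.coord_sq (fun n => (walks n).ncard)
    (fun n => rfl)
  refine ⟨μ, K, ⟨?_, hK0, ?_, ?_⟩⟩
  · -- if `μ < 1` then `2^n ≤ c n ≤ exp (K (log n)^5)`, impossible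
    by_contra hc
    rw [not_le] at hc
    have h1 : ∀ n : ℕ, 2 ≤ n → (n : ℝ) * Real.log 2 ≤ K * Real.log n ^ 5 := by
      intro n hn
      have h2 := (h n hn).2
      rw [ncard_walks] at h2
      have h3 : ((2 : ℕ) ^ n : ℝ) ≤ c n := by exact_mod_cast two_pow_le n
      have h4 : μ ^ n ≤ 1 := pow_le_one₀ hμ.le hc.le
      have h5 : (2 : ℝ) ^ n ≤ Real.exp (K * Real.log n ^ 5) := by
        calc (2 : ℝ) ^ n ≤ c n := by exact_mod_cast two_pow_le n
          _ ≤ μ ^ n * Real.exp (K * Real.log n ^ 5) := h2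
          _ ≤ 1 * Real.exp (K * Real.log n ^ 5) := by gcongr
          _ = _ := one_mul _
      have h6 := Real.log_le_log (by positivity) h5
      rwa [Real.log_pow, Real.log_exp] at h6
    have h7 : (fun n : ℕ => Real.log (n : ℝ) ^ 5) =o[Filter.atTop] (fun n : ℕ => (n : ℝ)) :=
      ((Real.isLittleO_pow_log_id_atTop (n := 5)).comp_tendsto tendsto_natCast_atTop_atTop)
    have hlog2 : 0 < Real.log 2 := Real.log_pos (by norm_num)
    have h8 := h7.def (c := Real.log 2 / (2 * (K + 1))) (by positivity)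
    obtain ⟨N, hN⟩ := Filter.eventually_atTop.1 h8
    have h9 := hN (max N 2) (le_max_left _ _)
    have h10 := h1 (max N 2) (le_max_right _ _)
    have hn0 : (0 : ℝ) < ((max N 2 : ℕ) : ℝ) := by
      exact_mod_cast lt_of_lt_of_le (by norm_num) (le_max_right N 2)
    rw [Real.norm_of_nonneg (pow_nonneg (Real.log_natCast_nonneg _) 5),
      Real.norm_of_nonneg hn0.le] at h9
    have h11 : K * Real.log ((max N 2 : ℕ) : ℝ) ^ 5 ≤
        K * (Real.log 2 / (2 * (K + 1)) * ((max N 2 : ℕ) : ℝ)) := by gcongr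
    have h12 : K * (Real.log 2 / (2 * (K + 1)) * ((max N 2 : ℕ) : ℝ)) <
        ((max N 2 : ℕ) : ℝ) * Real.log 2 := by
      have h13 : K * (Real.log 2 / (2 * (K + 1))) < Real.log 2 := by
        rw [mul_div_assoc', div_lt_iff₀ (by positivity)]
        nlinarith
      nlinarith
    linarith
  · intro n hn
    have := (h n hn).1
    rwa [ncard_walks] at this
  · intro n hn
    have := (h n hn).2
    rwa [ncard_walks] at this

/-- **Walks in a wedge.** -/
theorem wedge_final (η : ℝ) (hη : 0 < η) : ∃ K : ℝ, ∀ n : ℕ, 2 ≤ n →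
    Real.exp (-(K * Real.log n ^ 6)) ≤
      ({f | f ∈ walks n ∧ ∀ i, |((f i).1 : ℝ)| ≤ η * (f i).2}.ncard : ℝ) /
        ((walks n).ncard : ℝ) := by
  obtain ⟨μ, K, hB⟩ := exists_Bd
  obtain ⟨K6, -, h6⟩ := wedge hB hη
  refine ⟨K6, fun n hn => ?_⟩
  have hμ0 : 0 < μ := by linarith [hB.one]
  have hc : (0 : ℝ) < c n := lt_of_lt_of_le (pow_pos hμ0 n) (hB.low n hn)
  rw [ncard_walks, le_div_iff₀ hc]
  refine (h6 n hn).trans ?_
  have : wd η n ≤ {f | f ∈ walks n ∧ ∀ i, |((f i).1 : ℝ)| ≤ η * (f i).2}.ncard := by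
    unfold wd
    rw [← Set.ncard_coe_finset]
    refine Set.ncard_le_ncard_of_injOn (fw n) ?_ ?_ ((walks_finite n).subset fun f hf => hf.1)
    · intro w hw
      rw [Finset.mem_coe, mem_fs] at hw
      refine ⟨fw_mem hw.1.1 hw.2, fun i => ?_⟩
      exact hw.1.2 _ (List.take_prefix _ _)
    · intro w hw w' hw' h
      rw [Finset.mem_coe, mem_fs] at hw hw'
      exact fw_inj hw.2 hw'.2 h
  exact_mod_cast this

end Pool.Agent.H122R3.SX
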