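import Pool.Agent.H122R3.SX.Words

/-!
Concatenation of crossing words on the square lattice.
-/

set_option autoImplicit false

namespace Pool.Agent.H122R3.SX

open Finset

/-- horizontal displacement -/
def X (w : W) : ℤ := pos w 1

@[simp] theorem X_nil : X [] = 0 := rfl

theorem X_append (u v : W) : X (u ++ v) = X u + X v := pos_append u v 1

/-- pieces: self-avoiding words which go up by `H` levels and by `x` to the right, stay strictly
above the starting level after the start, and between the two levels, at horizontal distance at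
most `T` -/
structure G (H x T : ℤ) (w : W) : Prop where
  saw : Saw w
  top : pos w 0 = H
  hor : X w = x
  low : ∀ v, v <+: w → v ≠ [] → 1 ≤ pos v 0
  high : ∀ v, v <+: w → pos v 0 ≤ H ∧ |X v| ≤ T

theorem G.nonneg {H x T : ℤ} {w : W} (h : G H x T w) : 0 ≤ H := by
  have := (h.high [] (List.nil_prefix)).1
  simpa using this

theorem G.mono {H x T T' : ℤ} {w : W} (h : G H x T w) (hT : T ≤ T') : G H x T' w :=
  ⟨h.saw, h.top, h.hor, h.low, fun v hv => ⟨(h.high v hv).1, (h.high v hv).2.trans hT⟩⟩

theorem G_nil : G 0 0 0 [] := by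
  refine ⟨?_, rfl, X_nil, ?_, ?_⟩
  · intro v hv h0
    exact absurd (List.infix_nil.1 hv) h0
  · intro v hv h0
    exact absurd (List.prefix_nil.1 hv) h0
  · intro v hv
    rw [List.prefix_nil.1 hv]
    simp

theorem prefix_append_cases {v a b : W} (h : v <+: a ++ b) :
    v <+: a ∨ ∃ p, v = a ++ p ∧ p <+: b := by
  rcases List.prefix_or_prefix_of_prefix h (List.prefix_append a b) with h1 | ⟨p, rfl⟩
  · left; exact h1
  · right
    exact ⟨p, rfl, (List.prefix_append_right_inj a).1 h⟩

theorem infix_append_cases {v a b : W} (h : v <:+: a ++ b) :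
    v <:+: a ∨ v <:+: b ∨ ∃ s p, s ≠ [] ∧ p ≠ [] ∧ s <:+ a ∧ p <+: b ∧ v = s ++ p := by
  induction a with
  | nil => right; left; simpa using h
  | cons l a ih =>
    rw [List.cons_append, List.infix_cons_iff] at h
    rcases h with h | h
    · rcases List.prefix_cons_iff.1 h with h | ⟨t, rfl, ht⟩
      · left; rw [h]; exact List.nil_infix
      · rcases prefix_append_cases ht with ht | ⟨p, rfl, hp⟩
        · left
          exact ((List.cons_prefix_cons.2 ⟨rfl, ht⟩ : l :: t <+: l :: a)).isInfix
        · by_cases hp0 : p = []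
          · left
            rw [hp0, List.append_nil]
          · right; right
            exact ⟨l :: a, p, by simp, hp0, List.suffix_refl _, hp, rfl⟩
    · rcases ih h with h | h | ⟨s, p, h1, h2, h3, h4, h5⟩
      · left; exact h.trans (List.suffix_cons l a).isInfix
      · right; left; exact h
      · right; right
        exact ⟨s, p, h1, h2, h3.trans (List.suffix_cons l a), h4, h5⟩

/-- self-avoidance of a concatenation at a level -/
theorem saw_append {H : ℤ} {a b : W} (ha : Saw a) (hb : Saw b) (htop : pos a 0 = H)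
    (hhigh : ∀ v, v <+: a → pos v 0 ≤ H) (hlow : ∀ v, v <+: b → v ≠ [] → 1 ≤ pos v 0) :
    Saw (a ++ b) := by
  intro v hv h0
  rcases infix_append_cases hv with h | h | ⟨s, p, hs0, hp0, ⟨q, hq⟩, hp, rfl⟩
  · exact ha v h h0
  · exact hb v h h0
  · refine ⟨0, ?_⟩
    rw [pos_append]
    have h1 := hlow p hp hp0
    have h2 := hhigh q ⟨s, hq⟩
    rw [← hq, pos_append] at htop
    omega

theorem G.append {H x T H' x' T' : ℤ} {a b : W} (ha : G H x T a) (hb : G H' x' T' b) :
    G (H + H') (x + x') (max T (|x| + T')) (a ++ b) := by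
  have hH' := hb.nonneg
  refine ⟨saw_append ha.saw hb.saw ha.top (fun v hv => (ha.high v hv).1) hb.low, ?_, ?_, ?_, ?_⟩
  · rw [pos_append, ha.top, hb.top]
  · rw [X_append, ha.hor, hb.hor]
  · intro v hv h0
    rcases prefix_append_cases hv with hv | ⟨p, rfl, hp⟩
    · exact ha.low v hv h0
    · by_cases hp0 : p = []
      · rw [hp0, List.append_nil] at h0 ⊢
        exact ha.low a (List.prefix_refl _) h0
      · rw [pos_append, ha.top]
        have := hb.low p hp hp0
        have := ha.nonneg
        omega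
  · intro v hv
    rcases prefix_append_cases hv with hv | ⟨p, rfl, hp⟩
    · have := ha.high v hv
      exact ⟨by omega, this.2.trans (le_max_left _ _)⟩
    · have h1 := hb.high p hp
      rw [pos_append, X_append, ha.top, ha.hor]
      refine ⟨by omega, le_trans ?_ (le_max_right _ _)⟩
      exact (abs_add_le _ _).trans (by linarith [h1.2])

theorem UB.G {S : ℤ} {w : W} (h : UB S w) (hS : 1 ≤ S) : G S (X w) S w := by
  obtain ⟨h1, h2, h3, h4⟩ := h
  refine ⟨h1, h3, rfl, ?_, ?_⟩
  · intro v hv h0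
    by_cases hvw : v = w
    · rw [hvw, h3]; exact hS
    · exact (h4 v hv h0 hvw).1
  · intro v hv
    have a0 := h2 v hv.isInfix 0
    have a1 := h2 v hv.isInfix 1
    rw [abs_le] at a0
    exact ⟨a0.2, a1⟩

theorem UB.refl {S : ℤ} {w : W} (h : UB S w) : UB S (w.map (pm 4)) ∧ X (w.map (pm 4)) = -X w := by
  obtain ⟨h1, h2, h3, h4⟩ := h
  refine ⟨⟨h1.map 4, ?_, ?_, ?_⟩, ?_⟩
  · intro v hv j
    obtain ⟨v', hv', rfl⟩ := exists_of_inf_map hv
    have := h2 v' hv' j
    rw [pos_map]
    fin_cases j <;> simpa [mt] using this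
  · rw [pos_map, ← h3]; simp [mt]
  · intro v hv h0 hvw
    obtain ⟨v', hv', rfl⟩ := exists_of_pre_map hv
    have := h4 v' hv' (by simpa using h0) (by rintro rfl; exact hvw rfl)
    rw [pos_map]
    simpa [mt] using this
  · unfold X
    rw [pos_map]
    simp [mt]

theorem G_elem : G 1 0 0 [0] := by
  refine ⟨?_, by decide, by decide, ?_, ?_⟩
  · intro v hv h0
    have : v = [0] := by
      have := List.infix_cons_iff.1 hv
      rcases this with h | h
      · rcases List.prefix_cons_iff.1 h with h | ⟨t, rfl, ht⟩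
        · exact absurd h h0
        · rw [List.prefix_nil.1 ht]
      · exact absurd (List.infix_nil.1 h) h0
    rw [this]
    exact ⟨0, by decide⟩
  · intro v hv h0
    have key : ∀ v ∈ ([0] : W).inits, v ≠ [] → 1 ≤ pos v 0 := by decide
    exact key v ((List.mem_inits _ _).2 hv) h0
  · intro v hv
    have key : ∀ v ∈ ([0] : W).inits, pos v 0 ≤ 1 ∧ |X v| ≤ 0 := by
      unfold X
      decide
    exact key v ((List.mem_inits _ _).2 hv)

/-! ### counting -/

theorem fin_fs (P : W → Prop) (n : ℕ) : {w : W | P w ∧ w.length = n}.Finite :=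
  Set.Finite.subset (List.finite_length_eq (Fin 4) n) (fun _ hw => hw.2)

/-- the words of length `n` with a property -/
noncomputable def fs (P : W → Prop) (n : ℕ) : Finset W := (fin_fs P n).toFinset

theorem mem_fs {P : W → Prop} {n : ℕ} {w : W} : w ∈ fs P n ↔ P w ∧ w.length = n := by
  unfold fs
  rw [Set.Finite.mem_toFinset]
  rfl

/-- number of self-avoiding words -/
noncomputable def c (n : ℕ) : ℕ := (fs Saw n).card

/-- number of crossing words with given horizontal displacement -/
noncomputable def ubx (m : ℕ) (x : ℤ) (S : ℕ) : ℕ := (fs (fun w => UB S w ∧ X w = x) m).card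

/-- number of crossing words -/
noncomputable def ub (m S : ℕ) : ℕ := (fs (UB S) m).card

/-- number of pieces -/
noncomputable def g (H x T : ℤ) (n : ℕ) : ℕ := (fs (G H x T) n).card

theorem pm_symm (k : Fin 5) : ∃ f : Fin 4 → Fin 4, ∀ l, f (pm k l) = l :=
  ⟨Function.invFun (pm k), fun l => Function.leftInverse_invFun (pm_inj k) l⟩

theorem c_le {S n : ℕ} (hS : 1 ≤ S) (hn : 8 * S ^ 2 ≤ n) :
    c n ≤ ∑ m ∈ range (n + 1), ∑ a ∈ range (n - m + 1), 5 * (c a * ub m S * c (n - m - a)) := by
  classical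
  choose f hf using pm_symm
  have hsub : fs Saw n ⊆ (range (n + 1)).biUnion fun m => (range (n - m + 1)).biUnion fun a =>
      (univ : Finset (Fin 5)).biUnion fun k =>
        ((fs Saw a ×ˢ fs (UB S) m) ×ˢ fs Saw (n - m - a)).image
          (fun p => p.1.1 ++ (p.1.2.map (f k)) ++ p.2) := by
    intro w hw
    rw [mem_fs] at hw
    obtain ⟨u1, u2, u3, k, hw1, hw2⟩ := exists_UB hS hw.1 (by rw [hw.2]; exact hn)
    have hl := hw.2
    rw [hw1, List.length_append, List.length_append] at hl
    simp only [mem_biUnion, mem_range, mem_univ, true_and, mem_image, mem_product, Prod.exists]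
    refine ⟨u2.length, by omega, u1.length, by omega, k, u1, u2.map (pm k), u3, ?_, ?_⟩
    · refine ⟨⟨?_, ?_⟩, ?_⟩
      · rw [mem_fs]
        exact ⟨hw.1.inf (by rw [hw1, List.append_assoc]; exact (List.prefix_append _ _).isInfix), rfl⟩
      · rw [mem_fs, List.length_map]
        exact ⟨hw2, rfl⟩
      · rw [mem_fs]
        exact ⟨hw.1.inf (by rw [hw1]; exact (List.suffix_append _ _).isInfix), by omega⟩
    · rw [hw1]
      have e : (u2.map (pm k)).map (f k) = u2 := by
        rw [List.map_map]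
        convert List.map_id u2
        ext j
        simp [hf]
      rw [e]
  unfold c
  refine (card_le_card hsub).trans ?_
  refine card_biUnion_le.trans (sum_le_sum fun m _ => ?_)
  refine card_biUnion_le.trans (sum_le_sum fun a _ => ?_)
  refine card_biUnion_le.trans ?_
  calc ∑ k : Fin 5, (((fs Saw a ×ˢ fs (UB S) m) ×ˢ fs Saw (n - m - a)).image
          (fun p => p.1.1 ++ (p.1.2.map (f k)) ++ p.2)).card
      ≤ ∑ _k : Fin 5, (fs Saw a).card * (fs (UB S) m).card * (fs Saw (n - m - a)).card := by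
        refine sum_le_sum fun i _ => card_image_le.trans ?_
        rw [card_product, card_product]
    _ = _ := by
        rw [sum_const, card_univ, Fintype.card_fin, smul_eq_mul]
        rfl

theorem ub_le (m S : ℕ) : ub m S ≤ ∑ x ∈ Icc (-(S : ℤ)) S, ubx m x S := by
  classical
  have hsub : fs (UB S) m ⊆ (Icc (-(S : ℤ)) S).biUnion
      fun x => fs (fun w => UB S w ∧ X w = x) m := by
    intro w hw
    rw [mem_fs] at hw
    rw [mem_biUnion]
    have := hw.1.2.1 w (List.infix_refl _) 1
    rw [abs_le] at this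
    exact ⟨X w, mem_Icc.2 this, mem_fs.2 ⟨⟨hw.1, rfl⟩, hw.2⟩⟩
  exact (card_le_card hsub).trans card_biUnion_le

theorem g_mul (H x T H' x' T' : ℤ) (n n' : ℕ) :
    g H x T n * g H' x' T' n' ≤ g (H + H') (x + x') (max T (|x| + T')) (n + n') := by
  classical
  unfold g
  rw [← card_product]
  apply card_le_card_of_injOn (fun p => p.1 ++ p.2)
  · rintro ⟨a, b⟩ hp
    rw [coe_product, Set.mem_prod, mem_coe, mem_coe, mem_fs, mem_fs] at hp
    rw [mem_coe, mem_fs]
    refine ⟨hp.1.1.append hp.2.1, ?_⟩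
    rw [List.length_append, hp.1.2, hp.2.2]
  · rintro ⟨a, b⟩ hp ⟨a', b'⟩ hp' h
    rw [coe_product, Set.mem_prod, mem_coe, mem_coe, mem_fs, mem_fs] at hp hp'
    have := List.append_inj h (by rw [hp.1.2, hp'.1.2])
    exact Prod.ext this.1 this.2

theorem g_mono {H x T T' : ℤ} (n : ℕ) (h : T ≤ T') : g H x T n ≤ g H x T' n := by
  apply card_le_card
  intro w hw
  rw [mem_fs] at *
  exact ⟨hw.1.mono h, hw.2⟩

theorem g_pow {H T : ℤ} (hT : 0 ≤ T) (n k : ℕ) :
    g H 0 T n ^ k ≤ g (k * H) 0 T (k * n) := by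
  induction k with
  | zero =>
    simp only [pow_zero, Nat.cast_zero, zero_mul]
    apply card_pos.2
    exact ⟨[], mem_fs.2 ⟨G_nil.mono hT, rfl⟩⟩
  | succ k ih =>
    calc g H 0 T n ^ (k + 1) = g H 0 T n ^ k * g H 0 T n := pow_succ _ _
      _ ≤ g (k * H) 0 T (k * n) * g H 0 T n := Nat.mul_le_mul_right _ ih
      _ ≤ _ := by
        have := g_mul (k * H) 0 T H 0 T (k * n) n
        simp only [add_zero, abs_zero, zero_add, max_self] at this
        convert this using 2
        · push_cast; ring
        · ring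

theorem one_le_g (r : ℕ) {T : ℤ} (hT : 0 ≤ T) : 1 ≤ g r 0 T r := by
  have h1 : 1 ≤ g 1 0 T 1 := by
    apply card_pos.2
    exact ⟨[0], mem_fs.2 ⟨G_elem.mono hT, rfl⟩⟩
  have h2 := g_pow (H := 1) (T := T) (by omega) 1 r
  have h3 : 1 ≤ g 1 0 T 1 ^ r := Nat.one_le_pow _ _ h1
  rw [mul_one, mul_one] at h2
  exact h3.trans h2

theorem ubx_le_g1 {S : ℕ} (hS : 1 ≤ S) (m : ℕ) (x : ℤ) : ubx m x S ≤ g S x S m := by
  apply card_le_card
  intro w hw
  rw [mem_fs] at *
  have := hw.1.1.G (by exact_mod_cast hS)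
  rw [hw.1.2] at this
  exact ⟨this, hw.2⟩

theorem ubx_le_g2 {S : ℕ} (hS : 1 ≤ S) (m : ℕ) (x : ℤ) : ubx m x S ≤ g S (-x) S m := by
  apply card_le_card_of_injOn (fun w => w.map (pm 4))
  · intro w hw
    rw [mem_coe, mem_fs] at hw
    rw [mem_coe, mem_fs]
    obtain ⟨h1, h2⟩ := hw.1.1.refl
    have := h1.G (by exact_mod_cast hS)
    rw [h2, hw.1.2] at this
    exact ⟨this, by simp [hw.2]⟩
  · intro a _ b _ h
    exact (List.map_injective_iff.2 (pm_inj 4)) h

theorem ubx_sq_le {S : ℕ} (hS : 1 ≤ S) (m : ℕ) {x : ℤ} (hx : |x| ≤ S) :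
    ubx m x S ^ 2 ≤ g (2 * S) 0 (2 * S) (2 * m) := by
  have h1 := ubx_le_g1 hS m x
  have h2 := ubx_le_g2 hS m x
  have h3 := g_mul S x S S (-x) S m m
  calc ubx m x S ^ 2 = ubx m x S * ubx m x S := sq _
    _ ≤ g S x S m * g S (-x) S m := Nat.mul_le_mul h1 h2
    _ ≤ _ := h3
    _ = g (2 * S) 0 (max S (|x| + S)) (2 * m) := by
        congr 1
        · ring
        · ring
        · ring
    _ ≤ _ := by
        apply g_mono
        apply max_le
        · omega
        · omega

end Pool.Agent.H122R3.SX
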