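import Pool.Agent.H122R3.HX.Tube
import Pool.Agent.H122R3.SX.Link

/-!
Critical self-avoiding walks on the square lattice: gluing and tubes.
-/

set_option autoImplicit false

namespace Pool.Agent.H122R3.SY

open scoped ENNReal
open Pool.Agent.H122R3.HX (ZL TL gw rect glue nodup_len box_bound ofReal_exp_pow)
open Pool.Agent.H122R3.SX (W walks c fs mem_fs g G Adj fw fw_adj fw_injective fw_inj Bd K2
  K2_nonneg exists_piece g_pow g_mul g_mono one_le_g ncard_walks walks_finite two_pow_le pos X V)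

theorem nbr_symm (p q : ℤ × ℤ) (h : Adj p q) : Adj q p := by
  unfold Adj at *
  rw [abs_sub_comm q.1, abs_sub_comm q.2]
  exact h

/-- the connective constant -/
noncomputable def mu : ℝ :=
  ⨅ n : {n : ℕ // 1 ≤ n}, (((walks n.1).ncard : ℝ) ^ ((1 : ℝ) / (n.1 : ℝ)))

theorem one_le_mu : 1 ≤ mu := by
  have : Nonempty {n : ℕ // 1 ≤ n} := ⟨⟨1, le_refl 1⟩⟩
  unfold mu
  refine le_ciInf fun n => ?_
  apply Real.one_le_rpow
  · rw [ncard_walks]
    have h1 := two_pow_le n.1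
    have h2 : 1 ≤ c n.1 := (Nat.one_le_two_pow).trans h1
    exact_mod_cast h2
  · positivity

theorem exists_Bd : ∃ K : ℝ, Bd mu K := by
  obtain ⟨K, hK0, h⟩ := HX.bounds (L := H982P.sqL) H982P.coord_sq (fun n => (walks n).ncard)
    (fun n => rfl) mu rfl
  refine ⟨K, ⟨one_le_mu, hK0, fun n hn => ?_, fun n hn => ?_⟩⟩
  · have := (h n hn).1
    rwa [ncard_walks] at this
  · have := (h n hn).2
    rwa [ncard_walks] at this

/-- the critical fugacity -/
noncomputable def xe : ℝ≥0∞ := ENNReal.ofReal (1 / mu)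

/-- self-avoiding trajectories -/
def traj (D : Set (ℤ × ℤ)) (a b : ℤ × ℤ) (n : ℕ) : Set (Fin (n + 1) → ℤ × ℤ) :=
  {γ | γ 0 = a ∧ γ (Fin.last n) = b ∧ Function.Injective γ ∧
    (∀ i : Fin n, Adj (γ i.castSucc) (γ i.succ)) ∧ ∀ i, γ i ∈ D}

theorem traj_subset (D : Set (ℤ × ℤ)) (b : ℤ × ℤ) (n : ℕ) : traj D (0, 0) b n ⊆ walks n := by
  rintro γ ⟨h1, h2, h3, h4, h5⟩
  exact ⟨h1, h3, h4⟩

theorem g_le_traj {t : ℝ} {H : ℤ} (n : ℕ) :
    g H 0 ⌊t⌋ n ≤ (traj (rect t H) (0, 0) (0, H) n).ncard := by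
  unfold g
  rw [← Set.ncard_coe_finset]
  refine Set.ncard_le_ncard_of_injOn (fw n) ?_ ?_
    ((walks_finite n).subset (traj_subset _ _ n))
  · intro w hw
    rw [Finset.mem_coe, mem_fs] at hw
    obtain ⟨hG, hl⟩ := hw
    refine ⟨?_, ?_, fw_injective hG.saw hl, fw_adj hl, ?_⟩
    · simp [fw, V]
    · unfold fw V
      rw [Fin.val_last, List.take_of_length_le hl.le]
      rw [hG.hor, hG.top]
    · intro i
      have h1 := hG.high (w.take i) (List.take_prefix _ _)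
      refine ⟨?_, ?_, h1.1⟩
      · change |((X (w.take i) : ℤ) : ℝ)| ≤ t
        have h2 : |X (w.take i)| ≤ ⌊t⌋ := h1.2
        rw [Int.le_floor] at h2
        push_cast at h2
        exact h2
      · change 0 ≤ pos (w.take i) 0
        by_cases h : w.take i = []
        · rw [h]; simp
        · have := hG.low _ (List.take_prefix _ _) h
          omega
  · intro w hw w' hw' h
    rw [Finset.mem_coe, mem_fs] at hw hw'
    exact fw_inj hw.2 hw'.2 h

theorem main_lower {μ K : ℝ} (h : Bd μ K) {ε : ℝ} (hε : 0 < ε) : ∃ K3 : ℝ, 0 ≤ K3 ∧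
    ∀ L : ℕ, 2 ≤ L → ∀ ℓ : ℕ, ℓ ≤ L →
      ∃ n : ℕ, Real.exp (-(K3 * Real.log L ^ 5)) ≤ (g (2 * ℓ) 0 ⌊ε * L⌋ n : ℝ) / μ ^ n := by
  have hμ0 : 0 < μ := by linarith [h.one]
  have hlog2 : 0 < Real.log 2 := Real.log_pos (by norm_num)
  have hlμ : 0 ≤ Real.log μ := Real.log_nonneg h.one
  obtain ⟨k, hk⟩ : ∃ k : ℕ, k = ⌈2 / ε⌉₊ := ⟨_, rfl⟩
  have hk8 : 2 / ε ≤ k := by rw [hk]; exact Nat.le_ceil _
  have hk0 : 0 < k := by
    have : (0 : ℝ) < k := lt_of_lt_of_le (by positivity) hk8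
    exact_mod_cast this
  have hkε : 2 ≤ ε * k := by
    rw [div_le_iff₀ hε] at hk8
    linarith
  have hK2 := K2_nonneg h.Kn
  refine ⟨64 * k * K2 K + 2 * k * Real.log μ / Real.log 2 ^ 5, by positivity, ?_⟩
  intro L hL ℓ hℓ
  have hLr : (2 : ℝ) ≤ L := by exact_mod_cast hL
  obtain ⟨l, hl⟩ : ∃ l, l = Real.log (L : ℝ) := ⟨_, rfl⟩
  have hl2 : Real.log 2 ≤ l := by rw [hl]; exact Real.log_le_log (by norm_num) hLr
  have hl0 : 0 < l := by linarith
  have hl5 : Real.log 2 ^ 5 ≤ l ^ 5 := pow_le_pow_left₀ hlog2.le hl2 5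
  rw [← hl]
  have hT0 : (0 : ℤ) ≤ ⌊ε * L⌋ := Int.floor_nonneg.2 (by positivity)
  have hμk : ∀ j : ℕ, j ≤ 2 * k →
      Real.exp (-(2 * k * Real.log μ / Real.log 2 ^ 5 * l ^ 5)) ≤ 1 / μ ^ j := by
    intro j hj
    have e1 : (1 : ℝ) / μ ^ j = Real.exp (-(j * Real.log μ)) := by
      rw [Real.exp_neg, Real.exp_nat_mul, Real.exp_log hμ0, one_div]
    rw [e1]
    apply Real.exp_le_exp.2
    have e2 : (j : ℝ) ≤ 2 * k := by exact_mod_cast hj
    have e3 : (j : ℝ) * Real.log μ ≤ 2 * k * Real.log μ := by gcongr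
    have e4 : 2 * k * Real.log μ ≤ 2 * k * Real.log μ / Real.log 2 ^ 5 * l ^ 5 := by
      rw [div_mul_eq_mul_div, le_div_iff₀ (by positivity)]
      gcongr
    linarith
  have hdiv := Nat.div_add_mod ℓ k
  have hmod := Nat.mod_lt ℓ hk0
  obtain ⟨S, hS⟩ : ∃ S, S = ℓ / k := ⟨_, rfl⟩
  obtain ⟨r, hr⟩ : ∃ r, r = ℓ % k := ⟨_, rfl⟩
  rw [← hS, ← hr] at hdiv
  rw [← hr] at hmod
  rcases Nat.eq_zero_or_pos S with hS0 | hS0
  · refine ⟨2 * ℓ, ?_⟩
    have hLr' : ℓ < k := by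
      rw [hS0] at hdiv
      omega
    have e1 := one_le_g (2 * ℓ) hT0
    have e2 := hμk (2 * ℓ) (by omega)
    calc Real.exp (-((64 * k * K2 K + 2 * k * Real.log μ / Real.log 2 ^ 5) * l ^ 5))
        ≤ Real.exp (-(2 * k * Real.log μ / Real.log 2 ^ 5 * l ^ 5)) := by
          apply Real.exp_le_exp.2
          have : 0 ≤ 64 * k * K2 K * l ^ 5 := by positivity
          linarith
      _ ≤ 1 / μ ^ (2 * ℓ) := e2
      _ ≤ _ := by
          apply div_le_div_of_nonneg_right _ (by positivity)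
          push_cast at e1
          exact_mod_cast e1
  · obtain ⟨m, hm, hmx⟩ := exists_piece h hS0
    have hT : (2 * S : ℤ) ≤ ⌊ε * L⌋ := by
      rw [Int.le_floor]
      push_cast
      have a1 : (k : ℝ) * S ≤ L := by
        have : k * S ≤ L := by omega
        exact_mod_cast this
      have a3 : ε * ((k : ℝ) * S) ≤ ε * L := by gcongr
      have a4 : 2 * (S : ℝ) ≤ ε * k * S := by gcongr
      linarith
    refine ⟨k * m + 2 * r, ?_⟩
    have e1 : g (2 * S) 0 (2 * S) m ^ k ≤ g (2 * ℓ) 0 ⌊ε * L⌋ (k * m + 2 * r) := by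
      calc g (2 * S) 0 (2 * S) m ^ k ≤ g (2 * S) 0 ⌊ε * L⌋ m ^ k :=
            Nat.pow_le_pow_left (g_mono m hT) k
        _ ≤ g (k * (2 * S)) 0 ⌊ε * L⌋ (k * m) := g_pow hT0 m k
        _ = g (k * (2 * S)) 0 ⌊ε * L⌋ (k * m) * 1 := (mul_one _).symm
        _ ≤ g (k * (2 * S)) 0 ⌊ε * L⌋ (k * m) * g ((2 * r : ℕ) : ℤ) 0 ⌊ε * L⌋ (2 * r) :=
            Nat.mul_le_mul_left _ (one_le_g (2 * r) hT0)
        _ ≤ _ := g_mul _ _ _ _ _ _ _ _
        _ = _ := by
            congr 1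
            · have : (ℓ : ℤ) = k * S + r := by exact_mod_cast hdiv.symm
              rw [this]
              push_cast
              ring
            · simp
    have e3 : (g (2 * S) 0 (2 * S) m : ℝ) ^ k / μ ^ (k * m + 2 * r) ≤
        (g (2 * ℓ) 0 ⌊ε * L⌋ (k * m + 2 * r) : ℝ) / μ ^ (k * m + 2 * r) := by
      apply div_le_div_of_nonneg_right _ (by positivity)
      exact_mod_cast e1
    refine le_trans ?_ e3
    have e4 : (g (2 * S) 0 (2 * S) m : ℝ) ^ k / μ ^ (k * m + 2 * r) =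
        ((g (2 * S) 0 (2 * S) m : ℝ) / μ ^ m) ^ k * (1 / μ ^ (2 * r)) := by
      rw [div_pow, ← pow_mul, div_mul_div_comm, mul_one, ← pow_add]
      congr 2
      ring
    rw [e4]
    have e5 := hμk (2 * r) (by omega)
    have e6 : Real.log ((S : ℝ) + 1) ≤ 2 * l := by
      rw [hl]
      have : Real.log ((S : ℝ) + 1) ≤ Real.log ((L : ℝ) ^ 2) := by
        apply Real.log_le_log (by positivity)
        have a1 : (S : ℝ) ≤ L := by
          have : S ≤ L := by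
            rw [hS]; exact (Nat.div_le_self _ _).trans hℓ
          exact_mod_cast this
        nlinarith
      rw [Real.log_pow] at this
      exact_mod_cast this
    have e7 : 2 * K2 K * Real.log ((S : ℝ) + 1) ^ 5 ≤ 64 * K2 K * l ^ 5 := by
      have a0 : 0 ≤ Real.log ((S : ℝ) + 1) := Real.log_nonneg (by
        have : (0 : ℝ) ≤ S := Nat.cast_nonneg _
        linarith)
      have : Real.log ((S : ℝ) + 1) ^ 5 ≤ (2 * l) ^ 5 := pow_le_pow_left₀ a0 e6 5
      nlinarith [mul_le_mul_of_nonneg_left this hK2]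
    have e8 : Real.exp (-(64 * k * K2 K * l ^ 5)) ≤
        ((g (2 * S) 0 (2 * S) m : ℝ) / μ ^ m) ^ k := by
      calc Real.exp (-(64 * k * K2 K * l ^ 5)) = Real.exp (-(64 * K2 K * l ^ 5)) ^ k := by
            rw [← Real.exp_nat_mul]
            congr 1
            push_cast
            ring
        _ ≤ Real.exp (-(2 * K2 K * Real.log ((S : ℝ) + 1) ^ 5)) ^ k := by
            apply pow_le_pow_left₀ (Real.exp_pos _).le
            apply Real.exp_le_exp.2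
            linarith
        _ ≤ _ := pow_le_pow_left₀ (Real.exp_pos _).le hmx _
    calc Real.exp (-((64 * k * K2 K + 2 * k * Real.log μ / Real.log 2 ^ 5) * l ^ 5))
        = Real.exp (-(64 * k * K2 K * l ^ 5)) *
          Real.exp (-(2 * k * Real.log μ / Real.log 2 ^ 5 * l ^ 5)) := by
          rw [← Real.exp_add]
          congr 1
          ring
      _ ≤ _ := by gcongr

theorem ofFn_mem {D : Set (ℤ × ℤ)} {a b : ℤ × ℤ} {n : ℕ} {γ : Fin (n + 1) → ℤ × ℤ}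
    (h : γ ∈ traj D a b n) : List.ofFn γ ∈ TL Adj D a b := by
  obtain ⟨h1, h2, h3, h4, h5⟩ := h
  refine ⟨?_, ?_, ?_, ?_, ?_⟩
  · rw [List.head?_eq_getElem?, List.getElem?_ofFn, dif_pos (by omega), ← h1]
    rfl
  · rw [List.getLast?_eq_getElem?, List.getElem?_ofFn, List.length_ofFn, dif_pos (by omega), ← h2]
    rfl
  · rw [List.nodup_ofFn]; exact h3
  · rw [List.isChain_ofFn]
    intro i hi
    have := h4 ⟨i, by omega⟩
    exact this
  · intro p hp
    rw [List.mem_ofFn] at hp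
    obtain ⟨i, rfl⟩ := hp
    exact h5 i

theorem ZL_ge (x : ℝ≥0∞) (D : Set (ℤ × ℤ)) (a b : ℤ × ℤ) (n m : ℕ)
    (hm : m ≤ (traj D a b n).ncard) (hf : (traj D a b n).Finite) :
    (m : ℝ≥0∞) * x ^ n ≤ ZL Adj x D a b := by
  have hinj : Function.Injective
      (fun γ : traj D a b n => (⟨List.ofFn γ.1, ofFn_mem γ.2⟩ : TL Adj D a b)) := by
    intro γ γ' h
    simp only [Subtype.mk.injEq] at h
    exact Subtype.ext (List.ofFn_injective h)
  have h1 := ENNReal.tsum_comp_le_tsum_of_injective hinj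
    (fun l : TL Adj D a b => x ^ (l.1.length - 1))
  have h2 : ∑' γ : traj D a b n, x ^ n ≤ ZL Adj x D a b := by
    refine le_trans (le_of_eq ?_) h1
    congr 1
    funext γ
    simp
  rw [ENNReal.tsum_set_const] at h2
  refine le_trans ?_ h2
  refine mul_le_mul' ?_ le_rfl
  rw [← hf.cast_ncard_eq]
  simp only [ENat.toENNReal_coe, Nat.cast_le]
  exact hm

theorem ZL_map (x : ℝ≥0∞) {φ : ℤ × ℤ → ℤ × ℤ} (hφ : Function.Injective φ)
    (hn : ∀ p q, Adj p q → Adj (φ p) (φ q)) {A D : Set (ℤ × ℤ)} (h : ∀ p ∈ A, φ p ∈ D)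
    (a b : ℤ × ℤ) : ZL Adj x A a b ≤ ZL Adj x D (φ a) (φ b) := by
  have hmem : ∀ l ∈ TL Adj A a b, l.map φ ∈ TL Adj D (φ a) (φ b) := by
    rintro l ⟨h1, h2, h3, h4, h5⟩
    refine ⟨by rw [List.head?_map, h1]; rfl, by rw [List.getLast?_map, h2]; rfl, h3.map hφ,
      List.isChain_map_of_isChain φ hn h4, ?_⟩
    intro p hp
    rw [List.mem_map] at hp
    obtain ⟨q, hq, rfl⟩ := hp
    exact h q (h5 q hq)
  have hinj : Function.Injective
      (fun l : TL Adj A a b => (⟨l.1.map φ, hmem l.1 l.2⟩ : TL Adj D (φ a) (φ b))) := by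
    intro l l' h
    simp only [Subtype.mk.injEq] at h
    exact Subtype.ext (List.map_injective_iff.2 hφ h)
  have h1 := ENNReal.tsum_comp_le_tsum_of_injective hinj
    (fun l : TL Adj D (φ a) (φ b) => x ^ (l.1.length - 1))
  refine le_trans (le_of_eq ?_) h1
  unfold ZL
  congr 1
  funext l
  simp

/-- a symmetry of the lattice taking `p` to the origin -/
theorem exists_sym (p : ℤ × ℤ) : ∃ φ : ℤ × ℤ → ℤ × ℤ, Function.Injective φ ∧
    (∀ a b, Adj a b → Adj (φ a) (φ b)) ∧ φ p = (0, 0) := by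
  refine ⟨fun q => (q.1 - p.1, q.2 - p.2), ?_, ?_, by simp⟩
  · intro a b h
    simp only [Prod.mk.injEq] at h
    exact Prod.ext (by omega) (by omega)
  · intro a b h
    unfold Adj at *
    simp only [sub_sub_sub_cancel_right]
    exact h

/-- paths with `n` steps from `p` -/
def Sn (p : ℤ × ℤ) (n : ℕ) : Set (List (ℤ × ℤ)) :=
  {r | r.head? = some p ∧ r.Nodup ∧ r.IsChain Adj ∧ r.length = n + 1}

theorem Sn_card (p : ℤ × ℤ) (n : ℕ) : (Sn p n).Finite ∧ (Sn p n).ncard ≤ c n := by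
  obtain ⟨φ, hφ, hn, hp⟩ := exists_sym p
  have hmap : Set.MapsTo (fun (r : List (ℤ × ℤ)) (k : Fin (n + 1)) => φ (r.getD k (0, 0)))
      (Sn p n) (walks n) := by
    rintro r ⟨h1, h2, h3, h4⟩
    refine ⟨?_, ?_, ?_⟩
    · simp only [Fin.val_zero]
      rw [List.getD_eq_getElem?_getD, ← List.head?_eq_getElem?, h1]
      exact hp
    · intro i j hij
      have := hφ hij
      rw [List.getD_eq_getElem _ _ (by omega), List.getD_eq_getElem _ _ (by omega)] at this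
      exact Fin.ext ((h2.getElem_inj_iff).1 this)
    · intro i
      simp only [Fin.val_castSucc, Fin.val_succ]
      rw [List.getD_eq_getElem _ _ (by omega), List.getD_eq_getElem _ _ (by omega)]
      apply hn
      rw [List.isChain_iff_getElem] at h3
      exact h3 i (by omega)
  have hinj : Set.InjOn (fun (r : List (ℤ × ℤ)) (k : Fin (n + 1)) => φ (r.getD k (0, 0)))
      (Sn p n) := by
    rintro r ⟨-, -, -, h4⟩ r' ⟨-, -, -, h4'⟩ h
    apply List.ext_getElem (by omega)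
    intro i hi hi'
    have := hφ (congrFun h ⟨i, by omega⟩)
    simp only at this
    rwa [List.getD_eq_getElem _ _ hi, List.getD_eq_getElem _ _ hi'] at this
  refine ⟨Set.Finite.of_injOn hmap hinj (walks_finite n), ?_⟩
  rw [← ncard_walks]
  exact Set.ncard_le_ncard_of_injOn _ hmap hinj (walks_finite n)

theorem gw_sum_le (x : ℝ≥0∞) (N : ℕ) (p : ℤ × ℤ) :
    ∑' r : List (ℤ × ℤ), gw Adj x N (some p) r ≤ ∑ n ∈ Finset.range N, (c n : ℝ≥0∞) * x ^ n := by
  classical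
  have h0 : ∀ r ∉ (Finset.range N).biUnion (fun n => (Sn_card p n).1.toFinset),
      gw Adj x N (some p) r = 0 := by
    intro r hr
    unfold gw
    rw [if_neg]
    rintro ⟨h1, h2, h3, h4, h5⟩
    apply hr
    rw [Finset.mem_biUnion]
    have := List.length_pos_of_ne_nil h2
    refine ⟨r.length - 1, by rw [Finset.mem_range]; omega, ?_⟩
    rw [Set.Finite.mem_toFinset]
    exact ⟨h1, h3, h4, by omega⟩
  rw [tsum_eq_sum h0, Finset.sum_biUnion]
  · refine Finset.sum_le_sum fun n _ => ?_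
    calc ∑ r ∈ (Sn_card p n).1.toFinset, gw Adj x N (some p) r
        ≤ ∑ r ∈ (Sn_card p n).1.toFinset, x ^ n := by
          refine Finset.sum_le_sum fun r hr => ?_
          rw [Set.Finite.mem_toFinset] at hr
          unfold gw
          split_ifs
          · rw [hr.2.2.2]; exact le_rfl
          · exact zero_le
      _ = ((Sn_card p n).1.toFinset.card : ℝ≥0∞) * x ^ n := by
          rw [Finset.sum_const, nsmul_eq_mul]
      _ ≤ _ := by
          refine mul_le_mul' ?_ le_rfl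
          rw [← Set.ncard_eq_toFinset_card _ (Sn_card p n).1]
          exact_mod_cast (Sn_card p n).2
  · intro n _ m _ hnm
    rw [Function.onFun, Finset.disjoint_left]
    intro r hr hr'
    rw [Set.Finite.mem_toFinset] at hr hr'
    have e1 := hr.2.2.2
    have e2 := hr'.2.2.2
    omega

theorem ZL_le_gw (x : ℝ≥0∞) {D : Set (ℤ × ℤ)} (a b : ℤ × ℤ) {N : ℕ}
    (hN : ∀ l : List (ℤ × ℤ), l.Nodup → (∀ p ∈ l, p ∈ D) → l.length ≤ N) :
    ZL Adj x D a b ≤ ∑' r : List (ℤ × ℤ), gw Adj x N (some a) r := by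
  refine le_trans (le_of_eq ?_) (ENNReal.tsum_comp_le_tsum_of_injective
    (Subtype.val_injective (p := fun l => l ∈ TL Adj D a b)) (gw Adj x N (some a)))
  unfold ZL
  congr 1
  funext l
  obtain ⟨l, h1, h2, h3, h4, h5⟩ := l
  unfold gw
  rw [if_pos]
  refine ⟨h1, ?_, h3, h4, hN l h3 h5⟩
  rintro rfl
  simp at h1

theorem nodup_len {D : Set (ℤ × ℤ)} (hD : D.Finite) {N : ℕ} (hN : D.ncard ≤ N)
    (l : List (ℤ × ℤ)) (hl : l.Nodup) (h : ∀ p ∈ l, p ∈ D) : l.length ≤ N := by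
  classical
  rw [← List.toFinset_card_of_nodup hl, ← Set.ncard_coe_finset]
  refine (Set.ncard_le_ncard ?_ hD).trans hN
  intro p hp
  rw [Finset.mem_coe, List.mem_toFinset] at hp
  exact h p hp

/-- all the bounds in a bounded set -/
theorem bounds_in_box (M : ℝ) : ∃ K4 : ℝ, 0 ≤ K4 ∧ ∀ L : ℕ, 2 ≤ L → ∀ D : Set (ℤ × ℤ),
    (∀ p ∈ D, |(p.1 : ℝ)| ≤ M * L ∧ |(p.2 : ℝ)| ≤ M * L) →
    ∃ N : ℕ, (∀ l : List (ℤ × ℤ), l.Nodup → (∀ p ∈ l, p ∈ D) → l.length ≤ N) ∧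
      (N : ℝ≥0∞) ≤ ENNReal.ofReal (Real.exp (K4 * Real.log L ^ 5)) ∧
      ∀ p : ℤ × ℤ, ∑' r : List (ℤ × ℤ), gw Adj xe N (some p) r ≤
        ENNReal.ofReal (Real.exp (K4 * Real.log L ^ 5)) := by
  obtain ⟨K, hB⟩ := exists_Bd
  have hμ0 : 0 < mu := by linarith [hB.one]
  have hlog2 : 0 < Real.log 2 := Real.log_pos (by norm_num)
  obtain ⟨A, hA⟩ : ∃ A, A = (2 * |M| + 3) ^ 2 := ⟨_, rfl⟩
  have hA9 : 9 ≤ A := by
    rw [hA]
    nlinarith [abs_nonneg M]
  have hlA : 0 ≤ Real.log A := Real.log_nonneg (by linarith)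
  obtain ⟨q, hq⟩ : ∃ q, q = Real.log A / Real.log 2 + 2 := ⟨_, rfl⟩
  have hq0 : 0 ≤ q := by rw [hq]; positivity
  have hKn := hB.Kn
  obtain ⟨K4, hK4⟩ : ∃ K4, K4 = Real.log 4 / Real.log 2 ^ 5 + q / Real.log 2 ^ 4 + K * q ^ 5 :=
    ⟨_, rfl⟩
  have hlog3 : 0 ≤ Real.log 4 := Real.log_nonneg (by norm_num)
  have hK40 : 0 ≤ K4 := by rw [hK4]; positivity
  refine ⟨K4, hK40, ?_⟩
  intro L hL D hD2
  have hLr : (2 : ℝ) ≤ L := by exact_mod_cast hL
  obtain ⟨l, hl⟩ : ∃ l, l = Real.log (L : ℝ) := ⟨_, rfl⟩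
  have hl2 : Real.log 2 ≤ l := by rw [hl]; exact Real.log_le_log (by norm_num) hLr
  have hl0 : 0 < l := by linarith
  obtain ⟨hDf, hDc⟩ := box_bound hD2
  obtain ⟨N, hN⟩ : ∃ N, N = (2 * ⌊|M| * L⌋₊ + 1) ^ 2 + 2 := ⟨_, rfl⟩
  have h5 : (N : ℝ) ≤ A * L ^ 2 := by
    have h6 : (⌊|M| * L⌋₊ : ℝ) ≤ |M| * L := Nat.floor_le (by positivity)
    have h7 : (0 : ℝ) ≤ (⌊|M| * L⌋₊ : ℝ) := Nat.cast_nonneg _
    rw [hN, hA]
    push_cast
    have h8 : (2 * (⌊|M| * L⌋₊ : ℝ) + 1) ^ 2 ≤ (2 * (|M| * L) + 1) ^ 2 := by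
      apply pow_le_pow_left₀ (by positivity)
      linarith
    have h9 : 0 ≤ |M| := abs_nonneg M
    have h10 : (2 * (|M| * L) + 1) ≤ (2 * |M| + 1) * L := by nlinarith
    have h11 : (2 * (|M| * L) + 1) ^ 2 ≤ ((2 * |M| + 1) * L) ^ 2 :=
      pow_le_pow_left₀ (by positivity) h10 2
    have h12 : (2 : ℝ) ≤ L ^ 2 := by nlinarith
    nlinarith [mul_nonneg h9 (sq_nonneg (L : ℝ))]
  have hNr : (1 : ℝ) ≤ N := by exact_mod_cast (by omega : 1 ≤ N)
  have h13 : Real.log N ≤ q * l := by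
    calc Real.log N ≤ Real.log (A * L ^ 2) := Real.log_le_log (by linarith) h5
      _ = Real.log A + 2 * l := by
          rw [Real.log_mul (by positivity) (by positivity), Real.log_pow, ← hl]
          push_cast
          ring
      _ ≤ Real.log A / Real.log 2 * l + 2 * l := by
          have : Real.log A ≤ Real.log A / Real.log 2 * l := by
            rw [div_mul_eq_mul_div, le_div_iff₀ hlog2]
            gcongr
          linarith
      _ = _ := by rw [hq]; ring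
  have h14 : 0 ≤ Real.log N := Real.log_nonneg hNr
  have h15 : Real.log N ^ 5 ≤ q ^ 5 * l ^ 5 := by
    rw [← mul_pow]
    exact pow_le_pow_left₀ h14 h13 5
  have hl5 : Real.log 2 ^ 5 ≤ l ^ 5 := pow_le_pow_left₀ hlog2.le hl2 5
  have hl4 : Real.log 2 ^ 4 ≤ l ^ 4 := pow_le_pow_left₀ hlog2.le hl2 4
  have hfin : 4 * (N : ℝ) * Real.exp (K * Real.log N ^ 5) ≤ Real.exp (K4 * l ^ 5) := by
    calc 4 * (N : ℝ) * Real.exp (K * Real.log N ^ 5) =
          Real.exp (Real.log 4 + Real.log N + K * Real.log N ^ 5) := by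
          rw [Real.exp_add, Real.exp_add, Real.exp_log (by norm_num), Real.exp_log (by linarith)]
      _ ≤ _ := by
          apply Real.exp_le_exp.2
          have a1 : Real.log 4 ≤ Real.log 4 / Real.log 2 ^ 5 * l ^ 5 := by
            rw [div_mul_eq_mul_div, le_div_iff₀ (by positivity)]
            gcongr
          have a2 : q * l ≤ q / Real.log 2 ^ 4 * l ^ 5 := by
            rw [div_mul_eq_mul_div, le_div_iff₀ (by positivity)]
            calc q * l * Real.log 2 ^ 4 ≤ q * l * l ^ 4 := by gcongr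
              _ = _ := by ring
          have a3 : K * Real.log N ^ 5 ≤ K * (q ^ 5 * l ^ 5) := by gcongr
          rw [hK4]
          nlinarith
  have hE1 : 1 ≤ Real.exp (K * Real.log N ^ 5) := Real.one_le_exp (by positivity)
  rw [← hl]
  refine ⟨N, nodup_len hDf (by omega), ?_, ?_⟩
  · rw [← ENNReal.ofReal_natCast]
    apply ENNReal.ofReal_le_ofReal
    refine le_trans ?_ hfin
    nlinarith
  · intro p
    refine (gw_sum_le xe N p).trans ?_
    calc ∑ n ∈ Finset.range N, (c n : ℝ≥0∞) * xe ^ n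
        ≤ ∑ n ∈ Finset.range N, ENNReal.ofReal (4 * Real.exp (K * Real.log N ^ 5)) := by
          refine Finset.sum_le_sum fun n hn => ?_
          rw [Finset.mem_range] at hn
          unfold xe
          rw [← ENNReal.ofReal_natCast, ← ENNReal.ofReal_pow (by positivity),
            ← ENNReal.ofReal_mul (by positivity)]
          apply ENNReal.ofReal_le_ofReal
          have e1 := hB.c_le4 (a := n) (n := N) hn.le
          rw [div_pow, one_pow, mul_one_div, div_le_iff₀ (pow_pos hμ0 n)]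
          linarith
      _ = ENNReal.ofReal (4 * N * Real.exp (K * Real.log N ^ 5)) := by
          rw [Finset.sum_const, Finset.card_range, nsmul_eq_mul, ← ENNReal.ofReal_natCast,
            ← ENNReal.ofReal_mul (by positivity)]
          congr 1
          ring
      _ ≤ _ := ENNReal.ofReal_le_ofReal hfin

/-- the lower bound for rectangles of any height -/
theorem rect_lower {ε : ℝ} (hε : 0 < ε) : ∃ K3 : ℝ, 0 ≤ K3 ∧
    ∀ L : ℕ, 2 ≤ L → 1 ≤ ε * L → ∀ ℓ : ℕ, ℓ ≤ L →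
      ENNReal.ofReal (Real.exp (-(K3 * Real.log L ^ 5))) ≤
        ZL Adj xe (rect (ε * L) (2 * ℓ)) (0, 0) (0, 2 * ℓ) := by
  obtain ⟨K, hB⟩ := exists_Bd
  have hμ0 : 0 < mu := by linarith [hB.one]
  obtain ⟨K3, hK3, h3⟩ := main_lower hB hε
  refine ⟨K3, hK3, ?_⟩
  intro L hL hεL ℓ hℓ
  obtain ⟨n, hn⟩ := h3 L hL ℓ hℓ
  have h4 := g_le_traj (t := ε * L) (H := 2 * ℓ) n
  have h5 := ZL_ge xe (rect (ε * L) (2 * ℓ)) (0, 0) (0, 2 * ℓ) n _ h4
    ((walks_finite n).subset (traj_subset _ _ n))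
  refine le_trans ?_ h5
  unfold xe
  rw [← ENNReal.ofReal_natCast, ← ENNReal.ofReal_pow (by positivity),
    ← ENNReal.ofReal_mul (by positivity)]
  apply ENNReal.ofReal_le_ofReal
  refine hn.trans (le_of_eq ?_)
  rw [div_pow, one_pow]
  ring

/-- `p` and `q` are the midpoints of two opposite sides of a rectangle of width `2 t` and
height `2 ℓ`, `ℓ ≤ L`, contained in `T` (in any of the positions obtained by symmetries of the
lattice) -/
def Seg (T : Set (ℤ × ℤ)) (t : ℝ) (L : ℕ) (p q : ℤ × ℤ) : Prop :=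
  ∃ (φ : ℤ × ℤ → ℤ × ℤ) (ℓ : ℕ), Function.Bijective φ ∧ (∀ a b, Adj (φ a) (φ b) ↔ Adj a b) ∧
    ℓ ≤ L ∧ φ (0, 0) = p ∧ φ (0, 2 * ℓ) = q ∧ ∀ z ∈ rect t (2 * ℓ), φ z ∈ T

/-- **Gluing.** -/
theorem gluing (M : ℝ) : ∃ K : ℝ, ∀ L : ℕ, 2 ≤ L → ∀ D : Set (ℤ × ℤ),
    (∀ p ∈ D, |(p.1 : ℝ)| ≤ M * L ∧ |(p.2 : ℝ)| ≤ M * L) → ∀ a v b : ℤ × ℤ,
      ZL Adj xe D a v * ZL Adj xe D v b ≤
        ENNReal.ofReal (Real.exp (K * Real.log L ^ 5)) * ZL Adj xe D a b := by
  obtain ⟨K4, hK4, h4⟩ := bounds_in_box M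
  refine ⟨3 * K4, fun L hL D hD a v b => ?_⟩
  obtain ⟨N, hN1, hN2, hN3⟩ := h4 L hL D hD
  have h := glue (A := D) (B := D) (a := a) (v := v) (b := b) nbr_symm
    (by rw [Set.union_self]; exact hN1) xe _ hN3
  rw [Set.union_self] at h
  refine h.trans (mul_le_mul' ?_ le_rfl)
  calc (N : ℝ≥0∞) * ENNReal.ofReal (Real.exp (K4 * Real.log L ^ 5)) ^ 2
      ≤ ENNReal.ofReal (Real.exp (K4 * Real.log L ^ 5)) *
        ENNReal.ofReal (Real.exp (K4 * Real.log L ^ 5)) ^ 2 := mul_le_mul' hN2 le_rfl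
    _ = ENNReal.ofReal (Real.exp (K4 * Real.log L ^ 5)) ^ 3 := by ring
    _ = _ := by
        rw [ofReal_exp_pow]
        congr 2
        push_cast
        ring

/-- **Tubes.** -/
theorem tube (ε M : ℝ) (hε : 0 < ε) (k : ℕ) : ∃ K : ℝ, 0 ≤ K ∧ ∀ L : ℕ, 2 ≤ L → 1 ≤ ε * L →
    ∀ D : Set (ℤ × ℤ), (∀ p ∈ D, |(p.1 : ℝ)| ≤ M * L ∧ |(p.2 : ℝ)| ≤ M * L) →
      ∀ p : ℕ → ℤ × ℤ, (∀ i ≤ k, Seg D (ε * L) L (p i) (p (i + 1))) →
        ENNReal.ofReal (Real.exp (-(K * Real.log L ^ 5))) ≤ ZL Adj xe D (p 0) (p (k + 1)) := by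
  obtain ⟨K3, hK3, h3⟩ := rect_lower hε
  obtain ⟨K4, hK4⟩ := gluing M
  have hseg : ∀ L : ℕ, 2 ≤ L → 1 ≤ ε * L → ∀ D : Set (ℤ × ℤ), ∀ p q,
      Seg D (ε * L) L p q →
      ENNReal.ofReal (Real.exp (-(K3 * Real.log L ^ 5))) ≤ ZL Adj xe D p q := by
    rintro L hL hεL D p q ⟨φ, ℓ, hφ, hn, hℓ, rfl, rfl, hz⟩
    exact (h3 L hL hεL ℓ hℓ).trans
      (ZL_map xe hφ.1 (fun a b h => (hn a b).2 h) hz (0, 0) (0, 2 * ℓ))
  induction k with
  | zero =>
    refine ⟨K3, hK3, ?_⟩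
    intro L hL hεL D _ p hp
    exact hseg L hL hεL D _ _ (hp 0 le_rfl)
  | succ k ih =>
    obtain ⟨K, hK, ih⟩ := ih
    refine ⟨K + K3 + |K4|, by positivity, ?_⟩
    intro L hL hεL D hD p hp
    have h1 := ih L hL hεL D hD p (fun i hi => hp i (by omega))
    have h2 := hseg L hL hεL D _ _ (hp (k + 1) le_rfl)
    have h5 := hK4 L hL D hD (p 0) (p (k + 1)) (p (k + 1 + 1))
    have hl : 0 ≤ Real.log (L : ℝ) ^ 5 := pow_nonneg (Real.log_natCast_nonneg L) 5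
    have h6 : ENNReal.ofReal (Real.exp (-(K * Real.log L ^ 5))) *
        ENNReal.ofReal (Real.exp (-(K3 * Real.log L ^ 5))) ≤
        ENNReal.ofReal (Real.exp (|K4| * Real.log L ^ 5)) *
          ZL Adj xe D (p 0) (p (k + 1 + 1)) := by
      refine (mul_le_mul' h1 h2).trans (h5.trans (mul_le_mul' ?_ le_rfl))
      apply ENNReal.ofReal_le_ofReal
      apply Real.exp_le_exp.2
      exact mul_le_mul_of_nonneg_right (le_abs_self K4) hl
    have h7 : ENNReal.ofReal (Real.exp (-((K + K3 + |K4|) * Real.log L ^ 5))) =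
        ENNReal.ofReal (Real.exp (-(|K4| * Real.log L ^ 5))) *
        (ENNReal.ofReal (Real.exp (-(K * Real.log L ^ 5))) *
        ENNReal.ofReal (Real.exp (-(K3 * Real.log L ^ 5)))) := by
      rw [← ENNReal.ofReal_mul (Real.exp_pos _).le, ← ENNReal.ofReal_mul (Real.exp_pos _).le,
        ← Real.exp_add, ← Real.exp_add]
      congr 2
      ring
    rw [h7]
    calc ENNReal.ofReal (Real.exp (-(|K4| * Real.log L ^ 5))) *
        (ENNReal.ofReal (Real.exp (-(K * Real.log L ^ 5))) *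
        ENNReal.ofReal (Real.exp (-(K3 * Real.log L ^ 5))))
        ≤ ENNReal.ofReal (Real.exp (-(|K4| * Real.log L ^ 5))) *
        (ENNReal.ofReal (Real.exp (|K4| * Real.log L ^ 5)) *
          ZL Adj xe D (p 0) (p (k + 1 + 1))) := mul_le_mul' le_rfl h6
      _ = ZL Adj xe D (p 0) (p (k + 1 + 1)) := by
          rw [← mul_assoc, ← ENNReal.ofReal_mul (Real.exp_pos _).le, ← Real.exp_add,
            neg_add_cancel, Real.exp_zero, ENNReal.ofReal_one, one_mul]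

/-- **Upper bound.** -/
theorem upper (M : ℝ) : ∃ K : ℝ, 0 ≤ K ∧ ∀ L : ℕ, 2 ≤ L → ∀ D : Set (ℤ × ℤ),
    (∀ p ∈ D, |(p.1 : ℝ)| ≤ M * L ∧ |(p.2 : ℝ)| ≤ M * L) → ∀ a b : ℤ × ℤ,
      ZL Adj xe D a b ≤ ENNReal.ofReal (Real.exp (K * Real.log L ^ 5)) := by
  obtain ⟨K4, hK4, h4⟩ := bounds_in_box M
  refine ⟨K4, hK4, fun L hL D hD a b => ?_⟩
  obtain ⟨N, hN1, hN2, hN3⟩ := h4 L hL D hD
  exact (ZL_le_gw xe a b hN1).trans (hN3 a)

/-- **Main theorem.** -/
theorem final2 (ε M : ℝ) (hε : 0 < ε) (k : ℕ) : ∃ K : ℝ, ∀ L : ℕ, 2 ≤ L → 1 ≤ ε * L →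
    ∀ T D : Set (ℤ × ℤ), T ⊆ D → (∀ p ∈ D, |(p.1 : ℝ)| ≤ M * L ∧ |(p.2 : ℝ)| ≤ M * L) →
      ∀ p : ℕ → ℤ × ℤ, (∀ i ≤ k, Seg T (ε * L) L (p i) (p (i + 1))) →
        ENNReal.ofReal (Real.exp (-(K * Real.log L ^ 5))) ≤ ZL Adj xe D (p 0) (p (k + 1)) ∧
        ZL Adj xe D (p 0) (p (k + 1)) ≤ ENNReal.ofReal (Real.exp (K * Real.log L ^ 5)) ∧
        ENNReal.ofReal (Real.exp (-(K * Real.log L ^ 5))) ≤
          ZL Adj xe (D ∩ T) (p 0) (p (k + 1)) / ZL Adj xe D (p 0) (p (k + 1)) := by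
  obtain ⟨K1, hK1, h1⟩ := tube ε M hε k
  obtain ⟨K2, hK2, h2⟩ := upper M
  refine ⟨K1 + K2, ?_⟩
  intro L hL hεL T D hTD hD p hp
  have hl : 0 ≤ Real.log (L : ℝ) ^ 5 := pow_nonneg (Real.log_natCast_nonneg L) 5
  have hp' : ∀ i ≤ k, Seg D (ε * L) L (p i) (p (i + 1)) := by
    intro i hi
    obtain ⟨φ, ℓ, a1, a2, a3, a4, a5, a6⟩ := hp i hi
    exact ⟨φ, ℓ, a1, a2, a3, a4, a5, fun z hz => hTD (a6 z hz)⟩
  have e1 := h1 L hL hεL D hD p hp'
  have e2 := h2 L hL D hD (p 0) (p (k + 1))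
  have e3 := h1 L hL hεL T (fun z hz => hD z (hTD hz)) p hp
  refine ⟨le_trans (ENNReal.ofReal_le_ofReal (Real.exp_le_exp.2 ?_)) e1,
    e2.trans (ENNReal.ofReal_le_ofReal (Real.exp_le_exp.2 ?_)), ?_⟩
  · nlinarith [mul_nonneg hK2 hl]
  · nlinarith [mul_nonneg hK1 hl]
  · rw [Set.inter_eq_right.2 hTD]
    rw [ENNReal.le_div_iff_mul_le]
    · calc ENNReal.ofReal (Real.exp (-((K1 + K2) * Real.log L ^ 5))) *
            ZL Adj xe D (p 0) (p (k + 1))
          ≤ ENNReal.ofReal (Real.exp (-((K1 + K2) * Real.log L ^ 5))) *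
            ENNReal.ofReal (Real.exp (K2 * Real.log L ^ 5)) := mul_le_mul' le_rfl e2
        _ = ENNReal.ofReal (Real.exp (-(K1 * Real.log L ^ 5))) := by
            rw [← ENNReal.ofReal_mul (Real.exp_pos _).le, ← Real.exp_add]
            congr 2
            ring
        _ ≤ _ := e3
    · left
      intro h
      rw [h] at e1
      have := ENNReal.ofReal_pos.2 (Real.exp_pos (-(K1 * Real.log L ^ 5)))
      exact absurd (lt_of_lt_of_le this e1) (lt_irrefl _)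
    · left
      exact ne_top_of_le_ne_top ENNReal.ofReal_ne_top e2

end Pool.Agent.H122R3.SY
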