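import Pool.Agent.H122R3.SX.Tube

/-!
Critical self-avoiding walks on the square lattice: chains of wedges.
-/

set_option autoImplicit false

namespace Pool.Agent.H122R3.SZ

open scoped ENNReal
open Pool.Agent.H122R3.HX (ZL TL glue ofReal_exp_pow)
open Pool.Agent.H122R3.SX (W walks c fs mem_fs g G Adj fw fw_adj fw_injective fw_inj Bd K2
  K2_nonneg g_mul g_mono one_le_g walks_finite pos X V GW gw gw_mul one_le_gw exists_gw)
open Pool.Agent.H122R3.SY (mu xe traj traj_subset main_lower exists_Bd ZL_ge ZL_map nbr_symm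
  gluing upper)

/-- the wedge `|x| ≤ η y`, `0 ≤ y ≤ H` -/
def wedge (η : ℝ) (H : ℤ) : Set (ℤ × ℤ) := {p | |(p.1 : ℝ)| ≤ η * p.2 ∧ 0 ≤ p.2 ∧ p.2 ≤ H}

theorem gw_le_traj {η : ℝ} {H : ℤ} (n : ℕ) :
    gw η H n ≤ (traj (wedge η H) (0, 0) (0, H) n).ncard := by
  unfold gw
  rw [← Set.ncard_coe_finset]
  refine Set.ncard_le_ncard_of_injOn (fw n) ?_ ?_
    ((walks_finite n).subset (traj_subset _ _ n))
  · intro w hw
    rw [Finset.mem_coe, mem_fs] at hw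
    obtain ⟨hG, hl⟩ := hw
    refine ⟨?_, ?_, fw_injective hG.saw hl, fw_adj hl, ?_⟩
    · simp [fw, V]
    · unfold fw V
      rw [Fin.val_last, List.take_of_length_le hl.le]
      rw [hG.hor, hG.top]
    · intro i
      have h1 := hG.high (w.take i) (List.take_prefix _ _)
      exact ⟨h1.2.2, h1.1, h1.2.1⟩
  · intro w hw w' hw' h
    rw [Finset.mem_coe, mem_fs] at hw hw'
    exact fw_inj hw.2 hw'.2 h

theorem wedge_lower {μ K : ℝ} (h : Bd μ K) {η : ℝ} (hη : 0 < η) : ∃ K6 : ℝ, 0 ≤ K6 ∧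
    ∀ L : ℕ, 2 ≤ L → ∀ ℓ : ℕ, ℓ ≤ L →
      ∃ n : ℕ, Real.exp (-(K6 * Real.log L ^ 6)) ≤ (gw η ℓ n : ℝ) / μ ^ n := by
  have hμ0 : 0 < μ := by linarith [h.one]
  have hlog2 : 0 < Real.log 2 := Real.log_pos (by norm_num)
  have hlμ : 0 ≤ Real.log μ := Real.log_nonneg h.one
  have hK2 := K2_nonneg h.Kn
  obtain ⟨K3, hK3, h3⟩ := main_lower h hη
  obtain ⟨κ, hκd⟩ : ∃ κ : ℕ, κ = ⌈1 / η⌉₊ + 1 := ⟨_, rfl⟩
  have hκ1 : 1 ≤ κ := by omega
  have hκ : 1 ≤ η * κ := by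
    have h1 : 1 / η ≤ κ := by
      rw [hκd]
      push_cast
      linarith [Nat.le_ceil (1 / η)]
    rw [div_le_iff₀ hη] at h1
    linarith
  refine ⟨2 * κ * K2 K / Real.log 2 + K3 / Real.log 2 + (2 * κ + 1) * Real.log μ / Real.log 2 ^ 6,
    by positivity, ?_⟩
  intro L hL ℓ hℓ
  have hLr : (2 : ℝ) ≤ L := by exact_mod_cast hL
  obtain ⟨l, hl⟩ : ∃ l, l = Real.log (L : ℝ) := ⟨_, rfl⟩
  have hl2 : Real.log 2 ≤ l := by rw [hl]; exact Real.log_le_log (by norm_num) hLr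
  have hl0 : 0 < l := by linarith
  have hl6 : Real.log 2 ^ 6 ≤ l ^ 6 := pow_le_pow_left₀ hlog2.le hl2 6
  rw [← hl]
  have b3 : (2 * κ + 1) * Real.log μ ≤ (2 * κ + 1) * Real.log μ / Real.log 2 ^ 6 * l ^ 6 := by
    rw [div_mul_eq_mul_div, le_div_iff₀ (by positivity)]
    gcongr
  have b2 : K3 * l ^ 5 ≤ K3 / Real.log 2 * l ^ 6 := by
    rw [div_mul_eq_mul_div, le_div_iff₀ hlog2]
    calc K3 * l ^ 5 * Real.log 2 ≤ K3 * l ^ 5 * l := by gcongr
      _ = _ := by ring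
  have b1 : 0 ≤ 2 * κ * K2 K / Real.log 2 * l ^ 6 := by positivity
  rcases Nat.lt_or_ge ℓ (2 * κ) with hs | hs
  · refine ⟨ℓ, ?_⟩
    have e1 := one_le_gw hη ℓ
    have e2 : (1 : ℝ) / μ ^ ℓ = Real.exp (-(ℓ * Real.log μ)) := by
      rw [Real.exp_neg, Real.exp_nat_mul, Real.exp_log hμ0, one_div]
    calc Real.exp (-((2 * κ * K2 K / Real.log 2 + K3 / Real.log 2 +
          (2 * κ + 1) * Real.log μ / Real.log 2 ^ 6) * l ^ 6))
        ≤ Real.exp (-(ℓ * Real.log μ)) := by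
          apply Real.exp_le_exp.2
          have a0 : (ℓ : ℝ) ≤ 2 * κ + 1 := by exact_mod_cast (by omega : ℓ ≤ 2 * κ + 1)
          have a1 : (ℓ : ℝ) * Real.log μ ≤ (2 * κ + 1) * Real.log μ := by gcongr
          have a2 : 0 ≤ K3 * l ^ 5 := by positivity
          linarith
      _ = 1 / μ ^ ℓ := e2.symm
      _ ≤ _ := by
          apply div_le_div_of_nonneg_right _ (by positivity)
          exact_mod_cast e1
  · obtain ⟨j, hj⟩ : ∃ j, j = Nat.log 2 (ℓ / (2 * κ)) := ⟨_, rfl⟩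
    have hq : ℓ / (2 * κ) ≠ 0 := by
      have : 0 < ℓ / (2 * κ) := Nat.div_pos hs (by omega)
      omega
    have hj1 : 2 ^ j ≤ ℓ / (2 * κ) := by rw [hj]; exact Nat.pow_log_le_self 2 hq
    have hj2 : ℓ / (2 * κ) < 2 ^ (j + 1) := by
      rw [hj]; exact Nat.lt_pow_succ_log_self (by norm_num) _
    have hH1 : 2 * κ * 2 ^ j ≤ ℓ := by
      calc 2 * κ * 2 ^ j ≤ 2 * κ * (ℓ / (2 * κ)) := Nat.mul_le_mul_left _ hj1
        _ ≤ ℓ := Nat.mul_div_le _ _
    have hH2 : ℓ < 2 * (2 * κ * 2 ^ j) := by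
      have h1 := (Nat.div_lt_iff_lt_mul (by omega : 0 < 2 * κ)).1 hj2
      calc ℓ < 2 ^ (j + 1) * (2 * κ) := h1
        _ = _ := by ring
    obtain ⟨n0, -, hn0⟩ := exists_gw h hη hκ j
    obtain ⟨H, hH⟩ : ∃ H, H = 2 * κ * 2 ^ j := ⟨_, rfl⟩
    rw [← hH] at hH1 hH2 hn0
    have hH2' : 2 ≤ H := by
      rw [hH]
      have : 1 ≤ 2 ^ j := Nat.one_le_two_pow
      nlinarith
    obtain ⟨R, hR⟩ : ∃ R, R = (ℓ - H) / 2 := ⟨_, rfl⟩
    obtain ⟨e, he⟩ : ∃ e, e = (ℓ - H) % 2 := ⟨_, rfl⟩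
    have hRe : ℓ = H + 2 * R + e := by omega
    have he1 : e ≤ 1 := by omega
    obtain ⟨n1, hn1⟩ := h3 H hH2' R (by omega)
    refine ⟨n0 + n1 + e, ?_⟩
    have hT : ((⌊η * (H : ℝ)⌋ : ℤ) : ℝ) ≤ η * ((H : ℤ) : ℝ) := by
      have := Int.floor_le (η * (H : ℝ))
      exact_mod_cast this
    have m1 := gw_mul hη (H := (H : ℤ)) (H' := 2 * R) (T := ⌊η * (H : ℝ)⌋) hT n0 n1
    have m2 := gw_mul hη (H := (H : ℤ) + 2 * R) (H' := (e : ℤ)) (T := 0) (by
      push_cast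
      positivity) (n0 + n1) e
    have m3 := one_le_g e (T := 0) le_rfl
    have m4 : gw η H n0 * g (2 * R) 0 ⌊η * (H : ℝ)⌋ n1 ≤ gw η ℓ (n0 + n1 + e) := by
      refine m1.trans ?_
      calc gw η ((H : ℤ) + 2 * R) (n0 + n1) = gw η ((H : ℤ) + 2 * R) (n0 + n1) * 1 :=
            (mul_one _).symm
        _ ≤ gw η ((H : ℤ) + 2 * R) (n0 + n1) * g e 0 0 e := Nat.mul_le_mul_left _ m3
        _ ≤ _ := m2
        _ = _ := by
            rw [hRe]
            push_cast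
            rfl
    have m5 : (gw η H n0 : ℝ) / μ ^ n0 * ((g (2 * R) 0 ⌊η * (H : ℝ)⌋ n1 : ℝ) / μ ^ n1) *
        (1 / μ ^ e) ≤ (gw η ℓ (n0 + n1 + e) : ℝ) / μ ^ (n0 + n1 + e) := by
      rw [div_mul_div_comm, div_mul_div_comm, mul_one, ← pow_add, ← pow_add]
      apply div_le_div_of_nonneg_right _ (by positivity)
      exact_mod_cast m4
    refine le_trans ?_ m5
    have e2 : Real.exp (-(Real.log μ)) ≤ (1 : ℝ) / μ ^ e := by
      have : (1 : ℝ) / μ ^ e = Real.exp (-(e * Real.log μ)) := by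
        rw [Real.exp_neg, Real.exp_nat_mul, Real.exp_log hμ0, one_div]
      rw [this]
      apply Real.exp_le_exp.2
      have a0 : (e : ℝ) ≤ 1 := by exact_mod_cast he1
      have a1 : (e : ℝ) * Real.log μ ≤ 1 * Real.log μ := by gcongr
      linarith
    have hjl : (j : ℝ) * Real.log 2 ≤ l := by
      rw [hl, ← Real.log_pow]
      apply Real.log_le_log (by positivity)
      have : 2 ^ j ≤ L := by
        refine le_trans ?_ (hH1.trans hℓ)
        rw [hH]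
        nlinarith [Nat.one_le_two_pow (n := j)]
      exact_mod_cast this
    have hHl : Real.log (H : ℝ) ≤ l := by
      rw [hl]
      apply Real.log_le_log
      · exact_mod_cast (by omega : 0 < H)
      · exact_mod_cast hH1.trans hℓ
    have hH5 : Real.log (H : ℝ) ^ 5 ≤ l ^ 5 :=
      pow_le_pow_left₀ (Real.log_natCast_nonneg _) hHl 5
    have c1 : 2 * κ * K2 K * Real.log 2 ^ 5 * (j : ℝ) ^ 6 ≤
        2 * κ * K2 K / Real.log 2 * l ^ 6 := by
      have d1 : ((j : ℝ) * Real.log 2) ^ 6 ≤ l ^ 6 := pow_le_pow_left₀ (by positivity) hjl 6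
      rw [div_mul_eq_mul_div, le_div_iff₀ hlog2]
      calc 2 * κ * K2 K * Real.log 2 ^ 5 * (j : ℝ) ^ 6 * Real.log 2 =
            2 * κ * K2 K * ((j : ℝ) * Real.log 2) ^ 6 := by ring
        _ ≤ _ := by gcongr
    have c2 : K3 * Real.log (H : ℝ) ^ 5 ≤ K3 * l ^ 5 := by gcongr
    calc Real.exp (-((2 * κ * K2 K / Real.log 2 + K3 / Real.log 2 +
          (2 * κ + 1) * Real.log μ / Real.log 2 ^ 6) * l ^ 6))
        ≤ Real.exp (-(2 * κ * K2 K * Real.log 2 ^ 5 * (j : ℝ) ^ 6 + 2 * κ * Real.log μ)) *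
          Real.exp (-(K3 * Real.log (H : ℝ) ^ 5)) * Real.exp (-(Real.log μ)) := by
          rw [← Real.exp_add, ← Real.exp_add]
          apply Real.exp_le_exp.2
          linarith
      _ ≤ _ := by gcongr

/-- reversing -/
theorem ZL_rev (x : ℝ≥0∞) (D : Set (ℤ × ℤ)) (a b : ℤ × ℤ) : ZL Adj x D a b ≤ ZL Adj x D b a := by
  have hmem : ∀ l ∈ TL Adj D a b, l.reverse ∈ TL Adj D b a := by
    rintro l ⟨h1, h2, h3, h4, h5⟩
    refine ⟨by rw [List.head?_reverse, h2], by rw [List.getLast?_reverse, h1],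
      List.nodup_reverse.2 h3, ?_, ?_⟩
    · rw [List.isChain_reverse]
      exact h4.imp (fun a b h => nbr_symm a b h)
    · intro p hp
      exact h5 p (List.mem_reverse.1 hp)
  have hinj : Function.Injective
      (fun l : TL Adj D a b => (⟨l.1.reverse, hmem l.1 l.2⟩ : TL Adj D b a)) := by
    intro l l' h
    simp only [Subtype.mk.injEq] at h
    exact Subtype.ext (List.reverse_injective h)
  have h1 := ENNReal.tsum_comp_le_tsum_of_injective hinj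
    (fun l : TL Adj D b a => x ^ (l.1.length - 1))
  refine le_trans (le_of_eq ?_) h1
  unfold ZL
  congr 1
  funext l
  simp

/-- `p` is the apex and `q` the midpoint of the base of a wedge in `T`. -/
def Wed (T : Set (ℤ × ℤ)) (η : ℝ) (L : ℕ) (p q : ℤ × ℤ) : Prop :=
  ∃ (φ : ℤ × ℤ → ℤ × ℤ) (ℓ : ℕ), Function.Bijective φ ∧ (∀ a b, Adj (φ a) (φ b) ↔ Adj a b) ∧
    ℓ ≤ L ∧ φ (0, 0) = p ∧ φ (0, ℓ) = q ∧ ∀ z ∈ wedge η ℓ, φ z ∈ T

theorem wed_lower {η : ℝ} (hη : 0 < η) : ∃ K3 : ℝ, 0 ≤ K3 ∧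
    ∀ L : ℕ, 2 ≤ L → ∀ T : Set (ℤ × ℤ), ∀ p q, Wed T η L p q ∨ Wed T η L q p →
      ENNReal.ofReal (Real.exp (-(K3 * Real.log L ^ 6))) ≤ ZL Adj xe T p q := by
  obtain ⟨K, hB⟩ := exists_Bd
  have hμ0 : 0 < mu := by linarith [hB.one]
  obtain ⟨K3, hK3, h3⟩ := wedge_lower hB hη
  refine ⟨K3, hK3, ?_⟩
  have key : ∀ L : ℕ, 2 ≤ L → ∀ T : Set (ℤ × ℤ), ∀ p q, Wed T η L p q →
      ENNReal.ofReal (Real.exp (-(K3 * Real.log L ^ 6))) ≤ ZL Adj xe T p q := by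
    rintro L hL T p q ⟨φ, ℓ, hφ, hn, hℓ, rfl, rfl, hz⟩
    refine le_trans ?_ (ZL_map xe hφ.1 (fun a b h => (hn a b).2 h) hz (0, 0) (0, ℓ))
    obtain ⟨n, hn⟩ := h3 L hL ℓ hℓ
    have h4 := gw_le_traj (η := η) (H := ℓ) n
    have h5 := ZL_ge xe (wedge η ℓ) (0, 0) (0, ℓ) n _ h4
      ((walks_finite n).subset (traj_subset _ _ n))
    refine le_trans ?_ h5
    unfold xe
    rw [← ENNReal.ofReal_natCast, ← ENNReal.ofReal_pow (by positivity),
      ← ENNReal.ofReal_mul (by positivity)]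
    apply ENNReal.ofReal_le_ofReal
    refine hn.trans (le_of_eq ?_)
    rw [div_pow, one_pow]
    ring
  intro L hL T p q h
  rcases h with h | h
  · exact key L hL T p q h
  · exact (key L hL T q p h).trans (ZL_rev _ _ _ _)

theorem log56 : ∃ C : ℝ, 0 ≤ C ∧ ∀ L : ℕ, 2 ≤ L → Real.log L ^ 5 ≤ C * Real.log L ^ 6 := by
  have hlog2 : 0 < Real.log 2 := Real.log_pos (by norm_num)
  refine ⟨1 / Real.log 2, by positivity, fun L hL => ?_⟩
  have hLr : (2 : ℝ) ≤ L := by exact_mod_cast hL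
  have hl2 : Real.log 2 ≤ Real.log (L : ℝ) := Real.log_le_log (by norm_num) hLr
  have hl0 : 0 ≤ Real.log (L : ℝ) := by linarith
  rw [div_mul_eq_mul_div, one_mul, le_div_iff₀ hlog2]
  calc Real.log L ^ 5 * Real.log 2 ≤ Real.log L ^ 5 * Real.log L := by gcongr
    _ = _ := by ring

theorem chain (η M : ℝ) (hη : 0 < η) (k : ℕ) : ∃ K : ℝ, 0 ≤ K ∧ ∀ L : ℕ, 2 ≤ L →
    ∀ D : Set (ℤ × ℤ), (∀ p ∈ D, |(p.1 : ℝ)| ≤ M * L ∧ |(p.2 : ℝ)| ≤ M * L) →
      ∀ p : ℕ → ℤ × ℤ, (∀ i ≤ k, Wed D η L (p i) (p (i + 1)) ∨ Wed D η L (p (i + 1)) (p i)) →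
        ENNReal.ofReal (Real.exp (-(K * Real.log L ^ 6))) ≤ ZL Adj xe D (p 0) (p (k + 1)) := by
  obtain ⟨K3, hK3, h3⟩ := wed_lower hη
  obtain ⟨K4, hK4⟩ := gluing M
  obtain ⟨C, hC0, hC⟩ := log56
  induction k with
  | zero =>
    refine ⟨K3, hK3, ?_⟩
    intro L hL D _ p hp
    exact h3 L hL D _ _ (hp 0 le_rfl)
  | succ k ih =>
    obtain ⟨K, hK, ih⟩ := ih
    refine ⟨K + K3 + |K4| * C, by positivity, ?_⟩
    intro L hL D hD p hp
    have h1 := ih L hL D hD p (fun i hi => hp i (by omega))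
    have h2 := h3 L hL D _ _ (hp (k + 1) le_rfl)
    have h5 := hK4 L hL D hD (p 0) (p (k + 1)) (p (k + 1 + 1))
    have hl : 0 ≤ Real.log (L : ℝ) ^ 5 := pow_nonneg (Real.log_natCast_nonneg L) 5
    have hCL := hC L hL
    have h6 : ENNReal.ofReal (Real.exp (-(K * Real.log L ^ 6))) *
        ENNReal.ofReal (Real.exp (-(K3 * Real.log L ^ 6))) ≤
        ENNReal.ofReal (Real.exp (|K4| * C * Real.log L ^ 6)) *
          ZL Adj xe D (p 0) (p (k + 1 + 1)) := by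
      refine (mul_le_mul' h1 h2).trans (h5.trans (mul_le_mul' ?_ le_rfl))
      apply ENNReal.ofReal_le_ofReal
      apply Real.exp_le_exp.2
      calc K4 * Real.log L ^ 5 ≤ |K4| * Real.log L ^ 5 :=
            mul_le_mul_of_nonneg_right (le_abs_self K4) hl
        _ ≤ |K4| * (C * Real.log L ^ 6) := by gcongr
        _ = _ := by ring
    have h7 : ENNReal.ofReal (Real.exp (-((K + K3 + |K4| * C) * Real.log L ^ 6))) =
        ENNReal.ofReal (Real.exp (-(|K4| * C * Real.log L ^ 6))) *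
        (ENNReal.ofReal (Real.exp (-(K * Real.log L ^ 6))) *
        ENNReal.ofReal (Real.exp (-(K3 * Real.log L ^ 6)))) := by
      rw [← ENNReal.ofReal_mul (Real.exp_pos _).le, ← ENNReal.ofReal_mul (Real.exp_pos _).le,
        ← Real.exp_add, ← Real.exp_add]
      congr 2
      ring
    rw [h7]
    calc ENNReal.ofReal (Real.exp (-(|K4| * C * Real.log L ^ 6))) *
        (ENNReal.ofReal (Real.exp (-(K * Real.log L ^ 6))) *
        ENNReal.ofReal (Real.exp (-(K3 * Real.log L ^ 6))))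
        ≤ ENNReal.ofReal (Real.exp (-(|K4| * C * Real.log L ^ 6))) *
        (ENNReal.ofReal (Real.exp (|K4| * C * Real.log L ^ 6)) *
          ZL Adj xe D (p 0) (p (k + 1 + 1))) := mul_le_mul' le_rfl h6
      _ = ZL Adj xe D (p 0) (p (k + 1 + 1)) := by
          rw [← mul_assoc, ← ENNReal.ofReal_mul (Real.exp_pos _).le, ← Real.exp_add,
            neg_add_cancel, Real.exp_zero, ENNReal.ofReal_one, one_mul]

/-- **Main theorem.** -/
theorem final3 (η M : ℝ) (hη : 0 < η) (k : ℕ) : ∃ K : ℝ, ∀ L : ℕ, 2 ≤ L →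
    ∀ T D : Set (ℤ × ℤ), T ⊆ D → (∀ p ∈ D, |(p.1 : ℝ)| ≤ M * L ∧ |(p.2 : ℝ)| ≤ M * L) →
      ∀ p : ℕ → ℤ × ℤ, (∀ i ≤ k, Wed T η L (p i) (p (i + 1)) ∨ Wed T η L (p (i + 1)) (p i)) →
        ENNReal.ofReal (Real.exp (-(K * Real.log L ^ 6))) ≤ ZL Adj xe D (p 0) (p (k + 1)) ∧
        ZL Adj xe D (p 0) (p (k + 1)) ≤ ENNReal.ofReal (Real.exp (K * Real.log L ^ 6)) ∧
        ENNReal.ofReal (Real.exp (-(K * Real.log L ^ 6))) ≤
          ZL Adj xe (D ∩ T) (p 0) (p (k + 1)) / ZL Adj xe D (p 0) (p (k + 1)) := by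
  obtain ⟨K1, hK1, h1⟩ := chain η M hη k
  obtain ⟨K2', hK2', h2⟩ := upper M
  obtain ⟨C, hC0, hC⟩ := log56
  refine ⟨K1 + K2' * C, ?_⟩
  intro L hL T D hTD hD p hp
  have hl : 0 ≤ Real.log (L : ℝ) ^ 6 := pow_nonneg (Real.log_natCast_nonneg L) 6
  have hCL := hC L hL
  have e3 := h1 L hL T (fun z hz => hD z (hTD hz)) p hp
  have e1 : ENNReal.ofReal (Real.exp (-(K1 * Real.log L ^ 6))) ≤
      ZL Adj xe D (p 0) (p (k + 1)) := by
    refine e3.trans ?_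
    exact ZL_map xe (φ := id) Function.injective_id (fun p q h => h) (fun z hz => hTD hz) _ _
  have e2 : ZL Adj xe D (p 0) (p (k + 1)) ≤
      ENNReal.ofReal (Real.exp (K2' * C * Real.log L ^ 6)) := by
    refine (h2 L hL D hD (p 0) (p (k + 1))).trans ?_
    apply ENNReal.ofReal_le_ofReal
    apply Real.exp_le_exp.2
    calc K2' * Real.log L ^ 5 ≤ K2' * (C * Real.log L ^ 6) := by gcongr
      _ = _ := by ring
  have hK2C : 0 ≤ K2' * C := mul_nonneg hK2' hC0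
  refine ⟨le_trans (ENNReal.ofReal_le_ofReal (Real.exp_le_exp.2 ?_)) e1,
    e2.trans (ENNReal.ofReal_le_ofReal (Real.exp_le_exp.2 ?_)), ?_⟩
  · nlinarith [mul_nonneg hK2C hl]
  · nlinarith [mul_nonneg hK1 hl]
  · rw [Set.inter_eq_right.2 hTD]
    rw [ENNReal.le_div_iff_mul_le]
    · calc ENNReal.ofReal (Real.exp (-((K1 + K2' * C) * Real.log L ^ 6))) *
            ZL Adj xe D (p 0) (p (k + 1))
          ≤ ENNReal.ofReal (Real.exp (-((K1 + K2' * C) * Real.log L ^ 6))) *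
            ENNReal.ofReal (Real.exp (K2' * C * Real.log L ^ 6)) := mul_le_mul' le_rfl e2
        _ = ENNReal.ofReal (Real.exp (-(K1 * Real.log L ^ 6))) := by
            rw [← ENNReal.ofReal_mul (Real.exp_pos _).le, ← Real.exp_add]
            congr 2
            ring
        _ ≤ _ := e3
    · left
      intro h
      rw [h] at e1
      have := ENNReal.ofReal_pos.2 (Real.exp_pos (-(K1 * Real.log L ^ 6)))
      exact absurd (lt_of_lt_of_le this e1) (lt_irrefl _)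
    · left
      exact ne_top_of_le_ne_top ENNReal.ofReal_ne_top e2

end Pool.Agent.H122R3.SZ
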