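import Mathlib

/-!
Self-avoiding walks on the square lattice as words over four letters.
-/

set_option autoImplicit false

namespace Pool.Agent.H122R3.SX

abbrev W := List (Fin 4)

/-- the steps; coordinate `0` is the height -/
def st (l : Fin 4) (i : Fin 2) : ℤ :=
  if i = 0 then (if l = 0 then 1 else if l = 1 then -1 else 0)
  else (if l = 2 then 1 else if l = 3 then -1 else 0)

/-- displacement of a word -/
def pos : W → Fin 2 → ℤ
  | [], _ => 0
  | l :: w, i => st l i + pos w i

@[simp] theorem pos_nil (i : Fin 2) : pos [] i = 0 := rfl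
@[simp] theorem pos_cons (l : Fin 4) (w : W) (i : Fin 2) : pos (l :: w) i = st l i + pos w i := rfl

theorem pos_append (u v : W) (i : Fin 2) : pos (u ++ v) i = pos u i + pos v i := by
  induction u with
  | nil => simp
  | cons l u ih => rw [List.cons_append, pos_cons, ih, pos_cons]; ring

theorem st_abs (l : Fin 4) (i : Fin 2) : |st l i| ≤ 1 := by
  fin_cases l <;> fin_cases i <;> simp [st]

/-- self-avoiding words -/
def Saw (w : W) : Prop := ∀ v, v <:+: w → v ≠ [] → ∃ i, pos v i ≠ 0

theorem Saw.inf {w v : W} (h : Saw w) (hv : v <:+: w) : Saw v :=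
  fun x hx h0 => h x (hx.trans hv) h0

/-- symmetries: the first is the identity, then the reflection of the height, the exchange of the
coordinates, the quarter turn, the reflection of the other coordinate -/
def pm (k : Fin 5) (l : Fin 4) : Fin 4 :=
  match k with
  | 0 => l
  | 1 => if l = 0 then 1 else if l = 1 then 0 else l
  | 2 => if l = 0 then 2 else if l = 1 then 3 else if l = 2 then 0 else 1
  | 3 => if l = 0 then 2 else if l = 1 then 3 else if l = 2 then 1 else 0
  | 4 => if l = 2 then 3 else if l = 3 then 2 else l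

/-- matrix of the symmetry -/
def mt (k : Fin 5) (i j : Fin 2) : ℤ :=
  match k with
  | 0 => if i = j then 1 else 0
  | 1 => if i = j then (if i = 0 then -1 else 1) else 0
  | 2 => if i = j then 0 else 1
  | 3 => if i = j then 0 else (if i = 0 then -1 else 1)
  | 4 => if i = j then (if i = 0 then 1 else -1) else 0

theorem st_pm (k : Fin 5) (l : Fin 4) (i : Fin 2) :
    st (pm k l) i = mt k i 0 * st l 0 + mt k i 1 * st l 1 := by
  revert k l i
  decide

theorem pm_inj (k : Fin 5) : Function.Injective (pm k) := by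
  revert k
  decide

theorem pos_map (k : Fin 5) (w : W) (i : Fin 2) :
    pos (w.map (pm k)) i = mt k i 0 * pos w 0 + mt k i 1 * pos w 1 := by
  induction w with
  | nil => simp
  | cons l w ih =>
    rw [List.map_cons, pos_cons, ih, st_pm, pos_cons, pos_cons]
    ring

theorem exists_of_inf_map {f : Fin 4 → Fin 4} {w v : W} (h : v <:+: w.map f) :
    ∃ v', v' <:+: w ∧ v = v'.map f := by
  obtain ⟨s, t, h⟩ := h
  have h' := h.symm
  rw [List.append_assoc, List.map_eq_append_iff] at h'
  obtain ⟨a, b, hab, rfl, hb⟩ := h'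
  rw [List.map_eq_append_iff] at hb
  obtain ⟨c, d, rfl, rfl, rfl⟩ := hb
  exact ⟨c, ⟨a, d, by rw [hab, List.append_assoc]⟩, rfl⟩

theorem exists_of_pre_map {f : Fin 4 → Fin 4} {w v : W} (h : v <+: w.map f) :
    ∃ v', v' <+: w ∧ v = v'.map f := by
  obtain ⟨t, h⟩ := h
  have h' := h.symm
  rw [List.map_eq_append_iff] at h'
  obtain ⟨a, b, hab, rfl, rfl⟩ := h'
  exact ⟨a, ⟨b, hab.symm⟩, rfl⟩

theorem Saw.map {w : W} (h : Saw w) (k : Fin 5) : Saw (w.map (pm k)) := by
  intro v hv h0
  obtain ⟨v', hv', rfl⟩ := exists_of_inf_map hv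
  by_contra hcon
  push Not at hcon
  obtain ⟨i, hi⟩ := h v' hv' (by simpa using h0)
  have h1 := hcon 0
  have h2 := hcon 1
  rw [pos_map] at h1 h2
  fin_cases k <;> simp [mt] at h1 h2 <;> fin_cases i <;> simp at hi <;> omega

/-- `k`-crossing words: after the symmetry `k` they go up by `S` levels and stay strictly between
in the meantime -/
def UB (S : ℤ) (u : W) : Prop :=
  Saw u ∧ (∀ v, v <:+: u → ∀ j, |pos v j| ≤ S) ∧ pos u 0 = S ∧
    ∀ v, v <+: u → v ≠ [] → v ≠ u → 0 < pos v 0 ∧ pos v 0 < S

theorem Saw.take_ne {w : W} (h : Saw w) {i j : ℕ} (hij : i < j) (hj : j ≤ w.length) :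
    ∃ a, pos (w.take i) a ≠ pos (w.take j) a := by
  have h1 : (w.take j).take i ++ (w.take j).drop i = w.take j := List.take_append_drop _ _
  rw [List.take_take, min_eq_left hij.le] at h1
  have h2 : (w.take j).drop i <:+: w :=
    (List.drop_suffix _ _).isInfix.trans (List.take_prefix _ _).isInfix
  have h3 : (w.take j).drop i ≠ [] := by
    intro h
    have := congrArg List.length h
    simp only [List.length_drop, List.length_take, List.length_nil] at this
    omega
  obtain ⟨a, ha⟩ := h _ h2 h3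
  refine ⟨a, ?_⟩
  rw [← h1, pos_append]
  intro h4
  exact ha (by omega)

/-- a long self-avoiding word has a large extent -/
theorem exists_big {S : ℕ} (hS : 1 ≤ S) {w : W} (hw : Saw w) (hlen : 8 * S ^ 2 ≤ w.length) :
    ∃ v i, v <:+: w ∧ (S : ℤ) ≤ |pos v i| := by
  by_contra hcon
  push Not at hcon
  have hcard : (Finset.range (w.length + 1)).card ≤
      (Finset.Ioo (-(S : ℤ)) S ×ˢ Finset.Ioo (-(S : ℤ)) S).card := by
    apply Finset.card_le_card_of_injOn
      (fun k => (pos (w.take k) 0, pos (w.take k) 1))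
    · intro k hk
      have h0 := hcon (w.take k) 0 (List.take_prefix _ _).isInfix
      have h1 := hcon (w.take k) 1 (List.take_prefix _ _).isInfix
      rw [abs_lt] at h0 h1
      simp only [Finset.coe_product, Set.mem_prod, Finset.coe_Ioo, Set.mem_Ioo]
      exact ⟨h0, h1⟩
    · intro a ha b hb hab
      simp only [Finset.coe_range, Set.mem_Iio] at ha hb
      simp only [Prod.mk.injEq] at hab
      obtain ⟨e0, e1⟩ := hab
      by_contra hne
      rcases Nat.lt_or_gt_of_ne hne with h | h
      · obtain ⟨i, hi⟩ := hw.take_ne h (by omega)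
        apply hi
        fin_cases i
        · exact e0
        · exact e1
      · obtain ⟨i, hi⟩ := hw.take_ne h (by omega)
        apply hi
        fin_cases i
        · exact e0.symm
        · exact e1.symm
  rw [Finset.card_range, Finset.card_product, Int.card_Ioo] at hcard
  have e : ((S : ℤ) - -(S : ℤ) - 1).toNat = 2 * S - 1 := by omega
  rw [e] at hcard
  obtain ⟨s, rfl⟩ : ∃ s, S = s + 1 := ⟨S - 1, by omega⟩
  have e2 : 2 * (s + 1) - 1 = 2 * s + 1 := by omega
  rw [e2] at hcard
  nlinarith

/-- every long self-avoiding word contains a crossing word -/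
theorem exists_UB {S : ℕ} (hS : 1 ≤ S) {w : W} (hw : Saw w) (hlen : 8 * S ^ 2 ≤ w.length) :
    ∃ u1 u2 u3, ∃ k : Fin 5, w = u1 ++ u2 ++ u3 ∧ UB S (u2.map (pm k)) := by
  classical
  have hP : ∃ t, ∃ v i, v <:+: w.take t ∧ (S : ℤ) ≤ |pos v i| := by
    obtain ⟨v, i, h1, h2⟩ := exists_big hS hw hlen
    exact ⟨w.length, v, i, by rwa [List.take_length], h2⟩
  obtain ⟨v0, i, hv0, hv0S⟩ := Nat.find_spec hP
  have hmin : ∀ t, t < Nat.find hP → ∀ v j, v <:+: w.take t → |pos v j| < S := by
    intro t ht v j hv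
    by_contra h
    exact Nat.find_min hP ht ⟨v, j, hv, not_lt.1 h⟩
  obtain ⟨t, ht⟩ : ∃ t, t = Nat.find hP := ⟨_, rfl⟩
  rw [← ht] at hv0 hmin
  have ht0 : t ≠ 0 := by
    intro h
    rw [h, List.take_zero, List.infix_nil] at hv0
    rw [hv0, pos_nil, abs_zero] at hv0S
    omega
  obtain ⟨t', rfl⟩ : ∃ t', t = t' + 1 := ⟨t - 1, by omega⟩
  have htl : t' < w.length := by
    by_contra h
    apply absurd hv0S
    rw [not_le]
    apply hmin t' (by omega)
    rwa [List.take_of_length_le (by omega)] at hv0 ⊢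
  have htk : w.take (t' + 1) = w.take t' ++ [w[t']] := by
    rw [List.take_add_one, List.getElem?_eq_getElem htl]; rfl
  have hsuf : ∀ v j, v <:+: w.take (t' + 1) → (S : ℤ) ≤ |pos v j| → v <:+ w.take (t' + 1) := by
    intro v j hv hS'
    rw [htk, List.infix_concat_iff] at hv
    rcases hv with hv | hv
    · rw [htk]; exact hv
    · have := hmin t' (by omega) v j hv
      omega
  have hle : ∀ v j, v <:+: w.take (t' + 1) → |pos v j| ≤ S := by
    intro v j hv
    by_contra hcon
    rw [not_le] at hcon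
    have h1 := hsuf v j hv hcon.le
    rw [htk, List.suffix_concat_iff] at h1
    rcases h1 with h1 | ⟨y, h1, h2⟩
    · rw [h1, pos_nil, abs_zero] at hcon
      omega
    · have h3 := hmin t' (by omega) y j h2.isInfix
      have h4 := st_abs w[t'] j
      rw [h1, pos_append, pos_cons, pos_nil] at hcon
      rw [abs_lt] at h3
      rw [abs_le] at h4
      rw [lt_abs] at hcon
      omega
  have hQ : ∃ k, ∃ v, v <:+ w.take (t' + 1) ∧ v.length = k ∧ (S : ℤ) ≤ |pos v i| :=
    ⟨v0.length, v0, hsuf v0 i hv0 hv0S, rfl, hv0S⟩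
  obtain ⟨v, hv, hvk, hvS⟩ := Nat.find_spec hQ
  have hmin2 : ∀ v', v' <:+ w.take (t' + 1) → v'.length < v.length → |pos v' i| < S := by
    intro v' h1 h2
    by_contra h
    rw [hvk] at h2
    exact Nat.find_min hQ h2 ⟨v', h1, rfl, not_lt.1 h⟩
  have hvinf : v <:+: w := hv.isInfix.trans (List.take_prefix _ _).isInfix
  have hvi : pos v i = S ∨ pos v i = -S := by
    have h2 := hle v i hv.isInfix
    rw [abs_le] at h2
    rw [le_abs] at hvS
    omega
  have hvle : ∀ x, x <:+: v → ∀ j, |pos x j| ≤ S := fun x hx j => hle x j (hx.trans hv.isInfix)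
  obtain ⟨u1, hu1⟩ := hv
  have hpre : ∀ x, x <+: v → x ≠ [] → x ≠ v →
      (pos v i = S → 0 < pos x i ∧ pos x i < S) ∧
      (pos v i = -S → 0 < -pos x i ∧ -pos x i < S) := by
    intro x hx hx0 hxv
    obtain ⟨y, hy⟩ := hx
    have hy0 : y ≠ [] := by
      rintro rfl
      rw [List.append_nil] at hy
      exact hxv hy
    have hlx : x.length < v.length := by
      rw [← hy, List.length_append]
      have := List.length_pos_of_ne_nil hy0
      omega
    have hly : y.length < v.length := by
      rw [← hy, List.length_append]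
      have := List.length_pos_of_ne_nil hx0
      omega
    have hys : y <:+ v := ⟨x, hy⟩
    have h1 := hmin2 y (hys.trans ⟨u1, hu1⟩) hly
    have hxp : x <:+: w.take (t' + 1) :=
      (List.IsPrefix.isInfix ⟨y, hy⟩).trans (List.IsSuffix.isInfix ⟨u1, hu1⟩)
    have h2 : |pos x i| < S := by
      by_contra hc
      rw [not_lt] at hc
      have := hmin2 x (hsuf x i hxp hc) hlx
      omega
    have h3 : pos v i = pos x i + pos y i := by rw [← hy, pos_append]
    rw [abs_lt] at h1 h2
    constructor <;> intro h4 <;> constructor <;> omega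
  -- choose the symmetry
  have key : ∃ k : Fin 5, ∀ x : W, (pos v i = S → pos (x.map (pm k)) 0 = pos x i) ∧
      (pos v i = -S → pos (x.map (pm k)) 0 = -pos x i) ∧
      ∀ j, |pos (x.map (pm k)) j| = |pos x 0| ∨ |pos (x.map (pm k)) j| = |pos x 1| := by
    have hSpos : (0 : ℤ) < S := by exact_mod_cast hS
    rcases hvi with h | h <;> fin_cases i
    · refine ⟨0, fun x => ⟨?_, ?_, ?_⟩⟩
      · intro _; rw [pos_map]; simp [mt]
      · intro h'; simp only [Fin.zero_eta] at h h'; omega
      · intro j; rw [pos_map]; fin_cases j <;> simp [mt]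
    · refine ⟨2, fun x => ⟨?_, ?_, ?_⟩⟩
      · intro _; rw [pos_map]; simp [mt]
      · intro h'; simp only [Fin.mk_one] at h h'; omega
      · intro j; rw [pos_map]; fin_cases j <;> simp [mt]
    · refine ⟨1, fun x => ⟨?_, ?_, ?_⟩⟩
      · intro h'; simp only [Fin.zero_eta] at h h'; omega
      · intro _; rw [pos_map]; simp [mt]
      · intro j; rw [pos_map]; fin_cases j <;> simp [mt]
    · refine ⟨3, fun x => ⟨?_, ?_, ?_⟩⟩
      · intro h'; simp only [Fin.mk_one] at h h'; omega
      · intro _; rw [pos_map]; simp [mt]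
      · intro j; rw [pos_map]; fin_cases j <;> simp [mt]
  obtain ⟨k, hk⟩ := key
  refine ⟨u1, v, w.drop (t' + 1), k, ?_, ⟨(hw.inf hvinf).map k, ?_, ?_, ?_⟩⟩
  · rw [hu1, List.take_append_drop]
  · intro x hx j
    obtain ⟨x', hx', rfl⟩ := exists_of_inf_map hx
    rcases (hk x').2.2 j with h | h <;> rw [h]
    · exact hvle x' hx' 0
    · exact hvle x' hx' 1
  · rcases hvi with h | h
    · rw [(hk v).1 h, h]
    · rw [(hk v).2.1 h, h]; ring
  · intro x hx hx0 hxv
    obtain ⟨x', hx', rfl⟩ := exists_of_pre_map hx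
    have h5 := hpre x' hx' (by simpa using hx0) (by rintro rfl; exact hxv rfl)
    rcases hvi with h | h
    · rw [(hk x').1 h]; exact h5.1 h
    · rw [(hk x').2.1 h]; exact h5.2 h

end Pool.Agent.H122R3.SX
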